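import Pool.Agent.H91.CH.Chn

/-! Runs of long prime gaps, each much longer (or much shorter) than the one before, for a positive
proportion of the primes. -/

set_option autoImplicit false

open Finset Filter

namespace H91CK

open H91CH

/-- the primes after a good n are among the n + h_i -/
theorem idx_of_good {K m : ℕ} {La x : ℝ} (hL : 0 < Real.log x) (hLa : 0 ≤ La) {n : ℕ}
    {h : Fin K → ℕ} (hin' : ∀ i, 1 ≤ h i ∧ (h i : ℝ) ≤ La * Real.log x) (hG : Gd m La x n h) :
    (∀ j ≤ m, n < Nat.nth Nat.Prime (Nat.primeCounting n + j) ∧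
      Nat.nth Nat.Prime (Nat.primeCounting n + j) ≤ n + ⌊La * Real.log x⌋₊) ∧
    ∀ j ≤ m, ∃ i : Fin K, Nat.nth Nat.Prime (Nat.primeCounting n + j) = n + h i := by
  obtain ⟨hG1, hG2⟩ := hG
  set N := ⌊La * Real.log x⌋₊ with hN
  have hin : ∀ i : Fin K, 1 ≤ h i ∧ h i ≤ N := fun i => ⟨(hin' i).1, Nat.le_floor (hin' i).2⟩
  have hcount : Nat.primeCounting n + (m + 1) ≤ Nat.count Nat.Prime (n + N + 1) := by
    rw [count_eq_add]
    have h1 : (Finset.univ.image h).filter (fun k => (n + k).Prime)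
        ⊆ (Finset.Icc 1 N).filter (fun k => (n + k).Prime) := by
      intro k hk
      rw [Finset.mem_filter, Finset.mem_image] at hk
      obtain ⟨⟨i, _, rfl⟩, hk2⟩ := hk
      rw [Finset.mem_filter, Finset.mem_Icc]
      exact ⟨hin i, hk2⟩
    have h2 := Finset.card_le_card h1
    have h3 : Nat.primeCounting n = Nat.count Nat.Prime (n + 1) := rfl
    rw [h3]
    omega
  have hpos : ∀ j ≤ m, n < Nat.nth Nat.Prime (Nat.primeCounting n + j) ∧
      Nat.nth Nat.Prime (Nat.primeCounting n + j) ≤ n + N := by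
    intro j hj
    constructor
    · have h1 : n + 1 ≤ Nat.nth Nat.Prime (Nat.primeCounting n + j) := by
        rw [← Nat.count_le_iff_le_nth Nat.infinite_setOfPred_prime]
        show Nat.primeCounting n ≤ _
        omega
      omega
    · have h1 : Nat.nth Nat.Prime (Nat.primeCounting n + j) < n + N + 1 := by
        apply Nat.nth_lt_of_lt_count
        omega
      omega
  refine ⟨hpos, ?_⟩
  intro j hj
  obtain ⟨h1, h2⟩ := hpos j hj
  set q := Nat.nth Nat.Prime (Nat.primeCounting n + j) with hq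
  have hqp : q.Prime := Nat.nth_mem_of_infinite Nat.infinite_setOfPred_prime _
  have h3 : q = n + (q - n) := by omega
  by_contra hcon
  push Not at hcon
  have h4 : (q - n) ∉ Finset.univ.image h := by
    intro hmem
    rw [Finset.mem_image] at hmem
    obtain ⟨i, _, hi⟩ := hmem
    exact hcon i (by omega)
  apply hG2 (q - n) (by omega) ?_ h4
  · rw [← h3]; exact hqp
  · have h5 : ((q - n : ℕ) : ℝ) ≤ (N : ℝ) := by exact_mod_cast (by omega : q - n ≤ N)
    refine h5.trans ?_
    rw [hN]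
    exact Nat.floor_le (mul_nonneg hLa hL.le)

/-- from good n to indices of primes: a property of the index holds for a positive proportion -/
theorem count_indices {c La : ℝ} (hc : 0 < c) (hLa : 1 ≤ La) :
    ∃ x0 : ℝ, ∀ x : ℝ, x0 ≤ x → ∀ (A : Finset ℕ) (P : ℕ → Prop), c * x ≤ (A.card : ℝ) →
      (∀ n ∈ A, (n : ℝ) ≤ 3 / 4 * x ∧ P (Nat.primeCounting n) ∧
        n < Nat.nth Nat.Prime (Nat.primeCounting n) ∧
        Nat.nth Nat.Prime (Nat.primeCounting n) ≤ n + ⌊La * Real.log x⌋₊) →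
      c / ((La + 1) * (Real.log 4 + 1)) * (Nat.primeCounting ⌊x⌋₊ : ℝ) ≤
        (Set.ncard {i : ℕ | i < Nat.primeCounting ⌊x⌋₊ ∧ P i} : ℝ) := by
  have hev : ∀ᶠ x : ℝ in atTop, 1 ≤ Real.log x ∧ La * Real.log x ≤ x / 4 ∧
      (Nat.primeCounting ⌊x⌋₊ : ℝ) ≤ (Real.log 4 + 1) * x / Real.log x ∧ 1 ≤ x := by
    filter_upwards [Real.tendsto_log_atTop.eventually_ge_atTop 1,
      Pool.Agent.H17.eventually_log_pow_le 1 (show (0 : ℝ) < 1 / (4 * La) by positivity),
      Chebyshev.eventually_primeCounting_le (show (0 : ℝ) < 1 by norm_num),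
      eventually_ge_atTop 1] with x h2 h3 h4 h5
    refine ⟨h2, ?_, h4, h5⟩
    rw [pow_one] at h3
    calc La * Real.log x ≤ La * (1 / (4 * La) * x) := by gcongr
      _ = x / 4 := by field_simp
  obtain ⟨x0, hx0⟩ := eventually_atTop.mp hev
  refine ⟨x0, ?_⟩
  intro x hx A P hA1 hA2
  obtain ⟨hL, hLax, hpi, hx1'⟩ := hx0 x hx
  have hL0 : 0 < Real.log x := by linarith
  set N := ⌊La * Real.log x⌋₊ with hN
  have hNle : (N : ℝ) ≤ La * Real.log x := Nat.floor_le (by positivity)
  set G : Set ℕ := {i : ℕ | i < Nat.primeCounting ⌊x⌋₊ ∧ P i} with hGdef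
  have hGfin : G.Finite := by
    apply (Set.finite_lt_nat (Nat.primeCounting ⌊x⌋₊)).subset
    intro i hi
    exact hi.1
  have hmap : ∀ n ∈ A, Nat.primeCounting n ∈ hGfin.toFinset := by
    intro n hn
    obtain ⟨hn2, hP, hn3, hn4⟩ := hA2 n hn
    rw [Set.Finite.mem_toFinset]
    refine ⟨?_, hP⟩
    have h4 : Nat.nth Nat.Prime (Nat.primeCounting n) ≤ ⌊x⌋₊ := by
      apply Nat.le_floor
      have h5 : (Nat.nth Nat.Prime (Nat.primeCounting n) : ℝ) ≤ (n : ℝ) + (N : ℝ) := by
        exact_mod_cast hn4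
      linarith
    show Nat.primeCounting n < Nat.count Nat.Prime (⌊x⌋₊ + 1)
    rw [Nat.lt_nth_iff_count_lt Nat.infinite_setOfPred_prime]
    exact Nat.lt_succ_of_le h4
  have hfib : ∀ i ∈ hGfin.toFinset, (A.filter (fun n => Nat.primeCounting n = i)).card ≤ N + 1 := by
    intro i _
    have h1 : A.filter (fun n => Nat.primeCounting n = i)
        ⊆ Finset.Icc (Nat.nth Nat.Prime i - N) (Nat.nth Nat.Prime i) := by
      intro n hn
      rw [Finset.mem_filter] at hn
      obtain ⟨hnA, hni⟩ := hn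
      obtain ⟨hn2, hP, hn3, hn4⟩ := hA2 n hnA
      rw [hni] at hn3 hn4
      rw [Finset.mem_Icc]
      omega
    refine (Finset.card_le_card h1).trans ?_
    rw [Nat.card_Icc]
    omega
  have hcard := Finset.card_le_mul_card_image_of_maps_to hmap (N + 1) hfib
  have hncard : (Set.ncard G : ℝ) = (hGfin.toFinset.card : ℝ) := by
    rw [Set.ncard_eq_toFinset_card G hGfin]
  rw [hncard]
  have h1 : (A.card : ℝ) ≤ ((N : ℝ) + 1) * (hGfin.toFinset.card : ℝ) := by exact_mod_cast hcard
  have h2 : c * x ≤ ((La + 1) * Real.log x) * (hGfin.toFinset.card : ℝ) := by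
    refine (hA1.trans h1).trans ?_
    apply mul_le_mul_of_nonneg_right _ (Nat.cast_nonneg _)
    linarith
  have hlog4 : 0 < Real.log 4 := Real.log_pos (by norm_num)
  calc c / ((La + 1) * (Real.log 4 + 1)) * (Nat.primeCounting ⌊x⌋₊ : ℝ)
      ≤ c / ((La + 1) * (Real.log 4 + 1)) * ((Real.log 4 + 1) * x / Real.log x) := by gcongr
    _ = c * x / ((La + 1) * Real.log x) := by field_simp
    _ ≤ _ := by
      rw [div_le_iff₀ (by positivity)]
      linarith

/-- the gap after the prime with index i -/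
noncomputable def gap (i : ℕ) : ℝ :=
  (Nat.nth Nat.Prime (i + 1) : ℝ) - (Nat.nth Nat.Prime i : ℝ)

/-- positions: growing pattern -/
lemma pattern {K : ℕ} {lam q R : ℝ} (hlam : 0 < lam) (hR : 1 ≤ R) (hq : R + 3 ≤ q)
    {u v w : ℝ} {i j k : Fin K} (_hij : i < j) (hjk : j < k)
    (hu1 : lam * q ^ ((i : ℕ) + 1) ≤ u)
    (hv2 : v ≤ lam * (q ^ ((j : ℕ) + 1) + 1))
    (hw1 : lam * q ^ ((k : ℕ) + 1) ≤ w) :
    R * (v - u) < w - v := by
  have hq1 : 1 ≤ q := by linarith
  have hq0 : 0 < q := by linarith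
  have h1 : q ^ ((j : ℕ) + 1 + 1) ≤ q ^ ((k : ℕ) + 1) :=
    pow_le_pow_right₀ hq1 (by have : (j : ℕ) < k := hjk; omega)
  rw [pow_succ] at h1
  set Q := q ^ ((j : ℕ) + 1) with hQ
  have hQq : q ≤ Q := by
    rw [hQ]
    calc q = q ^ 1 := (pow_one _).symm
      _ ≤ q ^ ((j : ℕ) + 1) := pow_le_pow_right₀ hq1 (by omega)
  have hu0 : 0 < u := lt_of_lt_of_le (by positivity) hu1
  have h3 : lam * (Q * q) ≤ lam * q ^ ((k : ℕ) + 1) := mul_le_mul_of_nonneg_left h1 hlam.le
  have h4 : R * (v - u) < R * v := by nlinarith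
  have h5 : R * v ≤ R * (lam * (Q + 1)) := mul_le_mul_of_nonneg_left hv2 (by linarith)
  have h6 : lam * (R * (Q + 1) + (Q + 1)) ≤ lam * (Q * q) := by
    apply mul_le_mul_of_nonneg_left _ hlam.le
    nlinarith
  nlinarith

lemma pattern_long {K : ℕ} {lam q R : ℝ} (hlam : 0 < lam) (hR : 1 ≤ R) (hq : R + 3 ≤ q)
    {u v : ℝ} {i j : Fin K} (hij : i < j)
    (hu2 : u ≤ lam * (q ^ ((i : ℕ) + 1) + 1))
    (hv1 : lam * q ^ ((j : ℕ) + 1) ≤ v) : lam < v - u := by
  have hq1 : 1 ≤ q := by linarith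
  have h1 : q ^ ((i : ℕ) + 1 + 1) ≤ q ^ ((j : ℕ) + 1) :=
    pow_le_pow_right₀ hq1 (by have : (i : ℕ) < j := hij; omega)
  rw [pow_succ] at h1
  have hQq : 1 ≤ q ^ ((i : ℕ) + 1) := one_le_pow₀ hq1
  have h3 : lam * (q ^ ((i : ℕ) + 1) * q) ≤ lam * q ^ ((j : ℕ) + 1) :=
    mul_le_mul_of_nonneg_left h1 hlam.le
  have h4 : lam * (q ^ ((i : ℕ) + 1) + 1 + 2) ≤ lam * (q ^ ((i : ℕ) + 1) * q) := by
    apply mul_le_mul_of_nonneg_left _ hlam.le
    nlinarith
  nlinarith

/-- growing runs -/
theorem growing (m : ℕ) (lam R : ℝ) (hlam : 0 < lam) :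
    ∃ c : ℝ, 0 < c ∧ ∃ x0 : ℝ, ∀ x : ℝ, x0 ≤ x →
      c * (Nat.primeCounting ⌊x⌋₊ : ℝ) ≤
        (Set.ncard {i : ℕ | i < Nat.primeCounting ⌊x⌋₊ ∧
          (∀ j < m, lam * Real.log x < gap (i + j)) ∧
          ∀ j, j + 1 < m → R * gap (i + j) < gap (i + j + 1)} : ℝ) := by
  obtain ⟨K, hK, hmas⟩ := master m
  set R' : ℝ := max 1 R with hR'
  have hR1 : 1 ≤ R' := le_max_left _ _
  have hRR : R ≤ R' := le_max_right _ _
  set q : ℝ := R' + 3 with hq
  have hq1 : 1 ≤ q := by linarith
  have hq0 : 0 < q := by linarith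
  set La : ℝ := max 1 (lam * (q ^ K + 1)) with hLadef
  have hLa1 : 1 ≤ La := le_max_left _ _
  have hLaK : lam * (q ^ K + 1) ≤ La := le_max_right _ _
  have hbe : ∀ i : Fin K, lam * (q ^ ((i : ℕ) + 1) + 1) ≤ La := by
    intro i
    refine le_trans ?_ hLaK
    apply mul_le_mul_of_nonneg_left _ hlam.le
    have : q ^ ((i : ℕ) + 1) ≤ q ^ K := pow_le_pow_right₀ hq1 i.isLt
    linarith
  obtain ⟨c, x1, hc, hx1⟩ := hmas La (fun i => lam * q ^ ((i : ℕ) + 1))
    (fun i => lam * (q ^ ((i : ℕ) + 1) + 1)) hLa1 (fun i => by positivity)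
    (fun i => by nlinarith) hbe (by
      have key : ∀ i j : Fin K, i < j → lam * (q ^ ((i : ℕ) + 1) + 1) ≤ lam * q ^ ((j : ℕ) + 1) := by
        intro i j h
        apply mul_le_mul_of_nonneg_left _ hlam.le
        have h1 : q ^ ((i : ℕ) + 1 + 1) ≤ q ^ ((j : ℕ) + 1) :=
          pow_le_pow_right₀ hq1 (by have : (i : ℕ) < j := h; omega)
        rw [pow_succ] at h1
        have hQq : 1 ≤ q ^ ((i : ℕ) + 1) := one_le_pow₀ hq1
        nlinarith
      intro i j hij
      rcases lt_or_gt_of_ne hij with h | h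
      · exact Or.inl (key i j h)
      · exact Or.inr (key j i h))
  obtain ⟨x2, hx2⟩ := count_indices hc hLa1
  have hlog4 : 0 < Real.log 4 := Real.log_pos (by norm_num)
  refine ⟨c / ((La + 1) * (Real.log 4 + 1)), by positivity, max (max x1 x2) 3, ?_⟩
  intro x hx
  have hxx1 : x1 ≤ x := (le_max_left _ _).trans ((le_max_left _ _).trans hx)
  have hxx2 : x2 ≤ x := (le_max_right _ _).trans ((le_max_left _ _).trans hx)
  have hx3 : 3 ≤ x := (le_max_right _ _).trans hx
  have hL0 : 0 < Real.log x := Real.log_pos (by linarith)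
  obtain ⟨A, hA1, hA2⟩ := hx1 x hxx1
  apply hx2 x hxx2 A _ hA1
  intro n hn
  obtain ⟨hn1, hn2, h, hh, hg⟩ := hA2 n hn
  have hin : ∀ i, 1 ≤ h i ∧ (h i : ℝ) ≤ La * Real.log x := by
    intro i
    constructor
    · have h1 : (0 : ℝ) < h i := by
        refine lt_of_le_of_lt ?_ (hh i).1
        positivity
      exact_mod_cast h1
    · exact (hh i).2.trans (mul_le_mul_of_nonneg_right (hbe i) hL0.le)
  obtain ⟨hpos, hidx⟩ := idx_of_good hL0 (by linarith) hin hg
  have hp0 := hpos 0 (Nat.zero_le _)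
  rw [add_zero] at hp0
  -- scaled positions
  have hlamL : 0 < lam * Real.log x := by positivity
  have hu1 : ∀ i, (lam * Real.log x) * q ^ ((i : Fin K) : ℕ).succ < (h i : ℝ) := by
    intro i
    have := (hh i).1
    calc (lam * Real.log x) * q ^ ((i : Fin K) : ℕ).succ = lam * q ^ ((i : ℕ) + 1) * Real.log x := by
          rw [Nat.succ_eq_add_one]; ring
      _ < _ := this
  have hu2 : ∀ i, (h i : ℝ) ≤ (lam * Real.log x) * (q ^ ((i : Fin K) : ℕ).succ + 1) := by
    intro i
    have := (hh i).2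
    calc (h i : ℝ) ≤ lam * (q ^ ((i : ℕ) + 1) + 1) * Real.log x := this
      _ = _ := by rw [Nat.succ_eq_add_one]; ring
  have hmono : ∀ i j : Fin K, h i < h j → i < j := by
    intro i j hij
    by_contra hcon
    rcases lt_or_eq_of_le (not_lt.mp hcon) with h1 | h1
    · have h2 := pattern_long hlamL hR1 (le_refl q) h1 (hu2 j) (hu1 i).le
      have h3 : (h i : ℝ) < h j := by exact_mod_cast hij
      linarith
    · rw [h1] at hij
      exact lt_irrefl _ hij
  have hstep : ∀ j, j < m → ∃ i i' : Fin K, i < i' ∧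
      Nat.nth Nat.Prime (Nat.primeCounting n + j) = n + h i ∧
      Nat.nth Nat.Prime (Nat.primeCounting n + j + 1) = n + h i' := by
    intro j hj
    obtain ⟨i, hi⟩ := hidx j hj.le
    obtain ⟨i', hi'⟩ := hidx (j + 1) hj
    have hlt : Nat.nth Nat.Prime (Nat.primeCounting n + j)
        < Nat.nth Nat.Prime (Nat.primeCounting n + (j + 1)) :=
      Nat.nth_strictMono Nat.infinite_setOfPred_prime (by omega)
    rw [hi, hi'] at hlt
    exact ⟨i, i', hmono i i' (by omega), hi, by rw [add_assoc]; exact hi'⟩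
  refine ⟨hn2, ⟨?_, ?_⟩, hp0.1, hp0.2⟩
  · intro j hj
    obtain ⟨i, i', hii, hi, hi'⟩ := hstep j hj
    unfold gap
    rw [hi, hi']
    have := pattern_long hlamL hR1 (le_refl q) hii (hu2 i) (hu1 i').le
    push_cast
    linarith
  · intro j hj
    obtain ⟨i, i', hii, hi, hi'⟩ := hstep j (by omega)
    obtain ⟨k, k', hkk, hk, hk'⟩ := hstep (j + 1) hj
    have hik : h i' = h k := by
      have h1 : Nat.primeCounting n + j + 1 = Nat.primeCounting n + (j + 1) := by ring
      rw [h1] at hi'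
      omega
    unfold gap
    have e1 : Nat.primeCounting n + j + 1 + 1 = Nat.primeCounting n + (j + 1) + 1 := by ring
    rw [e1, hi, hi', hk']
    have hik' : i' < k' := hmono i' k' (by
      have h2 : h k < h k' := by
        have hlt : Nat.nth Nat.Prime (Nat.primeCounting n + (j + 1))
            < Nat.nth Nat.Prime (Nat.primeCounting n + (j + 1) + 1) :=
          Nat.nth_strictMono Nat.infinite_setOfPred_prime (by omega)
        rw [hk, hk'] at hlt
        omega
      omega)
    have := pattern hlamL hR1 (le_refl q) hii hik' (hu1 i).le (hu2 i') (hu1 k').le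
    push_cast
    have h5 : R * (((n : ℝ) + h i') - (n + h i)) ≤ R' * (((n : ℝ) + h i') - (n + h i)) := by
      apply mul_le_mul_of_nonneg_right hRR
      have := pattern_long hlamL hR1 (le_refl q) hii (hu2 i) (hu1 i').le
      linarith
    linarith

/-- shrinking runs -/
theorem shrinking (m : ℕ) (lam R : ℝ) (hlam : 0 < lam) :
    ∃ c : ℝ, 0 < c ∧ ∃ x0 : ℝ, ∀ x : ℝ, x0 ≤ x →
      c * (Nat.primeCounting ⌊x⌋₊ : ℝ) ≤
        (Set.ncard {i : ℕ | i < Nat.primeCounting ⌊x⌋₊ ∧
          (∀ j < m, lam * Real.log x < gap (i + j)) ∧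
          ∀ j, j + 1 < m → R * gap (i + j + 1) < gap (i + j)} : ℝ) := by
  obtain ⟨K, hK, hmas⟩ := master m
  set R' : ℝ := max 1 R with hR'
  have hR1 : 1 ≤ R' := le_max_left _ _
  have hRR : R ≤ R' := le_max_right _ _
  set q : ℝ := R' + 3 with hq
  have hq1 : 1 ≤ q := by linarith
  have hq0 : 0 < q := by linarith
  set La : ℝ := max 1 (lam * (q ^ K + 1)) with hLadef
  have hLa1 : 1 ≤ La := le_max_left _ _
  have hLaK : lam * (q ^ K + 1) ≤ La := le_max_right _ _
  have hbe : ∀ i : Fin K, lam * (q ^ ((i : ℕ) + 1) + 1) ≤ La := by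
    intro i
    refine le_trans ?_ hLaK
    apply mul_le_mul_of_nonneg_left _ hlam.le
    have : q ^ ((i : ℕ) + 1) ≤ q ^ K := pow_le_pow_right₀ hq1 i.isLt
    linarith
  obtain ⟨c, x1, hc, hx1⟩ := hmas La (fun i => La - lam * (q ^ ((i : ℕ) + 1) + 1))
    (fun i => La - lam * q ^ ((i : ℕ) + 1)) hLa1 (fun i => by linarith [hbe i])
    (fun i => by nlinarith) (fun i => by
      have : 0 < lam * q ^ ((i : ℕ) + 1) := by positivity
      linarith) (by
      have key : ∀ i j : Fin K, i < j → lam * (q ^ ((i : ℕ) + 1) + 1) ≤ lam * q ^ ((j : ℕ) + 1) := by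
        intro i j h
        apply mul_le_mul_of_nonneg_left _ hlam.le
        have h1 : q ^ ((i : ℕ) + 1 + 1) ≤ q ^ ((j : ℕ) + 1) :=
          pow_le_pow_right₀ hq1 (by have : (i : ℕ) < j := h; omega)
        rw [pow_succ] at h1
        have hQq : 1 ≤ q ^ ((i : ℕ) + 1) := one_le_pow₀ hq1
        nlinarith
      intro i j hij
      rcases lt_or_gt_of_ne hij with h | h
      · right
        have := key i j h
        linarith
      · left
        have := key j i h
        linarith)
  obtain ⟨x2, hx2⟩ := count_indices hc hLa1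
  have hlog4 : 0 < Real.log 4 := Real.log_pos (by norm_num)
  refine ⟨c / ((La + 1) * (Real.log 4 + 1)), by positivity, max (max x1 x2) 3, ?_⟩
  intro x hx
  have hxx1 : x1 ≤ x := (le_max_left _ _).trans ((le_max_left _ _).trans hx)
  have hxx2 : x2 ≤ x := (le_max_right _ _).trans ((le_max_left _ _).trans hx)
  have hx3 : 3 ≤ x := (le_max_right _ _).trans hx
  have hL0 : 0 < Real.log x := Real.log_pos (by linarith)
  obtain ⟨A, hA1, hA2⟩ := hx1 x hxx1
  apply hx2 x hxx2 A _ hA1
  intro n hn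
  obtain ⟨hn1, hn2, h, hh, hg⟩ := hA2 n hn
  have hin : ∀ i, 1 ≤ h i ∧ (h i : ℝ) ≤ La * Real.log x := by
    intro i
    constructor
    · have h1 : (0 : ℝ) < h i := by
        refine lt_of_le_of_lt ?_ (hh i).1
        have := hbe i
        apply mul_nonneg _ hL0.le
        linarith
      exact_mod_cast h1
    · refine (hh i).2.trans (mul_le_mul_of_nonneg_right ?_ hL0.le)
      have : 0 < lam * q ^ ((i : ℕ) + 1) := by positivity
      linarith
  obtain ⟨hpos, hidx⟩ := idx_of_good hL0 (by linarith) hin hg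
  have hp0 := hpos 0 (Nat.zero_le _)
  rw [add_zero] at hp0
  have hlamL : 0 < lam * Real.log x := by positivity
  -- reflected positions
  set u : Fin K → ℝ := fun i => La * Real.log x - (h i : ℝ) with hu
  have hu1 : ∀ i, (lam * Real.log x) * q ^ ((i : Fin K) : ℕ).succ ≤ u i := by
    intro i
    have h1 := (hh i).2
    have h2 : (La - lam * q ^ ((i : ℕ) + 1)) * Real.log x
        = La * Real.log x - (lam * Real.log x) * q ^ ((i : ℕ) + 1) := by ring
    show _ ≤ La * Real.log x - (h i : ℝ)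
    rw [Nat.succ_eq_add_one]
    rw [h2] at h1
    linarith
  have hu2 : ∀ i, u i ≤ (lam * Real.log x) * (q ^ ((i : Fin K) : ℕ).succ + 1) := by
    intro i
    have h1 := (hh i).1
    have h2 : (La - lam * (q ^ ((i : ℕ) + 1) + 1)) * Real.log x
        = La * Real.log x - (lam * Real.log x) * (q ^ ((i : ℕ) + 1) + 1) := by ring
    show La * Real.log x - (h i : ℝ) ≤ _
    rw [Nat.succ_eq_add_one]
    rw [h2] at h1
    linarith
  have hmono : ∀ i j : Fin K, h i < h j → j < i := by
    intro i j hij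
    by_contra hcon
    rcases lt_or_eq_of_le (not_lt.mp hcon) with h1 | h1
    · have h2 := pattern_long hlamL hR1 (le_refl q) h1 (hu2 i) (hu1 j)
      have h3 : (h i : ℝ) < h j := by exact_mod_cast hij
      have h4 : u j - u i = (h i : ℝ) - h j := by simp only [hu]; ring
      linarith
    · rw [h1] at hij
      exact lt_irrefl _ hij
  have hstep : ∀ j, j < m → ∃ i i' : Fin K, i' < i ∧
      Nat.nth Nat.Prime (Nat.primeCounting n + j) = n + h i ∧
      Nat.nth Nat.Prime (Nat.primeCounting n + j + 1) = n + h i' := by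
    intro j hj
    obtain ⟨i, hi⟩ := hidx j hj.le
    obtain ⟨i', hi'⟩ := hidx (j + 1) hj
    have hlt : Nat.nth Nat.Prime (Nat.primeCounting n + j)
        < Nat.nth Nat.Prime (Nat.primeCounting n + (j + 1)) :=
      Nat.nth_strictMono Nat.infinite_setOfPred_prime (by omega)
    rw [hi, hi'] at hlt
    exact ⟨i, i', hmono i i' (by omega), hi, by rw [add_assoc]; exact hi'⟩
  refine ⟨hn2, ⟨?_, ?_⟩, hp0.1, hp0.2⟩
  · intro j hj
    obtain ⟨i, i', hii, hi, hi'⟩ := hstep j hj
    unfold gap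
    rw [hi, hi']
    have := pattern_long hlamL hR1 (le_refl q) hii (hu2 i') (hu1 i)
    have h4 : u i - u i' = (h i' : ℝ) - h i := by simp only [hu]; ring
    push_cast
    linarith
  · intro j hj
    obtain ⟨i, i', hii, hi, hi'⟩ := hstep j (by omega)
    obtain ⟨k, k', hkk, hk, hk'⟩ := hstep (j + 1) hj
    have hik : h i' = h k := by
      have h1 : Nat.primeCounting n + j + 1 = Nat.primeCounting n + (j + 1) := by ring
      rw [h1] at hi'
      omega
    unfold gap
    have e1 : Nat.primeCounting n + j + 1 + 1 = Nat.primeCounting n + (j + 1) + 1 := by ring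
    rw [e1, hi, hi', hk']
    have hik' : k' < i' := hmono i' k' (by
      have h2 : h k < h k' := by
        have hlt : Nat.nth Nat.Prime (Nat.primeCounting n + (j + 1))
            < Nat.nth Nat.Prime (Nat.primeCounting n + (j + 1) + 1) :=
          Nat.nth_strictMono Nat.infinite_setOfPred_prime (by omega)
        rw [hk, hk'] at hlt
        omega
      omega)
    have h6 := pattern hlamL hR1 (le_refl q) hik' hii (hu1 k') (hu2 i') (hu1 i)
    have h4 : u i - u i' = (h i' : ℝ) - h i := by simp only [hu]; ring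
    have h7 : u i' - u k' = (h k' : ℝ) - h i' := by simp only [hu]; ring
    rw [h4, h7] at h6
    push_cast
    have h5 : R * (((n : ℝ) + h k') - (n + h i')) ≤ R' * (((n : ℝ) + h k') - (n + h i')) := by
      apply mul_le_mul_of_nonneg_right hRR
      have h8 := pattern_long hlamL hR1 (le_refl q) hik' (hu2 k') (hu1 i')
      linarith
    have h9 : (((n : ℝ) + h k') - (n + h i')) = (h k' : ℝ) - h i' := by ring
    rw [h9] at h5
    rw [h9]
    linarith

end H91CK
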