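import Pool.Agent.H91.CK.Mst

/-! The main theorem for families of admissible sets, and the version with a set A of allowed shifts
and a set D of forbidden differences. -/

set_option autoImplicit false

open Finset Pool.Agent.H17 Filter

namespace H91CK

/-- the theorem for families of admissible sets -/
theorem families (m : ℕ) : ∃ K : ℕ, m + 1 ≤ K ∧ ∀ La : ℝ, ∃ c x0 : ℝ, 0 < c ∧
    ∀ x : ℝ, x0 ≤ x → ∀ F : Finset (Finset ℕ),
    (∀ H ∈ F, H.card = K ∧ (∀ h ∈ H, 1 ≤ h ∧ (h : ℝ) ≤ La * Real.log x) ∧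
      ∀ p : ℕ, p.Prime → ∃ r : ℕ, ∀ h ∈ H, ¬ h ≡ r [MOD p]) →
    c * (F.card : ℝ) * x / Real.log x ^ K ≤ (Set.ncard {n : ℕ | x / 3 ≤ n ∧
      (n : ℝ) + La * Real.log x ≤ x ∧ ∃ H ∈ F,
        m + 1 ≤ (H.filter (fun h => (n + h).Prime)).card ∧
        (∀ k : ℕ, 1 ≤ k → (k : ℝ) ≤ La * Real.log x → k ∉ H → ¬ (n + k).Prime) ∧
        ∀ h ∈ H, ∀ p : ℕ, p.Prime → p ∣ n + h → x ^ c < p} : ℝ) := by
  classical
  obtain ⟨K, hK, hmas⟩ := master2 m
  refine ⟨K, hK, ?_⟩
  intro La
  obtain ⟨c, e, x1, hc, he, hx1⟩ := hmas (max 1 La) (le_max_left _ _)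
  have hev : ∀ᶠ x : ℝ in atTop, x1 ≤ x ∧ 1 ≤ Real.log x ∧ max 1 La * Real.log x ≤ x / 4 ∧
      6 ≤ x := by
    filter_upwards [eventually_ge_atTop x1, Real.tendsto_log_atTop.eventually_ge_atTop 1,
      eventually_log_pow_le 1 (show (0 : ℝ) < 1 / (4 * max 1 La) by positivity),
      eventually_ge_atTop 6] with x h1 h2 h3 h5
    refine ⟨h1, h2, ?_, h5⟩
    rw [pow_one] at h3
    calc max 1 La * Real.log x ≤ max 1 La * (1 / (4 * max 1 La) * x) := by gcongr
      _ = x / 4 := by field_simp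
  obtain ⟨x0, hx0⟩ := eventually_atTop.mp hev
  refine ⟨min c e, x0, lt_min hc he, ?_⟩
  intro x hx F hF
  obtain ⟨hxx1, hL, hLax, hx6⟩ := hx0 x hx
  have hL0 : 0 < Real.log x := by linarith
  have hLaL : La * Real.log x ≤ max 1 La * Real.log x :=
    mul_le_mul_of_nonneg_right (le_max_right _ _) hL0.le
  -- the family of tuples
  let tup : Finset ℕ → (Fin K → ℕ) := fun H =>
    if hH : H.card = K then fun i => H.orderEmbOfFin hH i else fun _ => 0
  have htup : ∀ H ∈ F, Function.Injective (tup H) ∧ Finset.univ.image (tup H) = H := by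
    intro H hHF
    have hH := (hF H hHF).1
    have e1 : tup H = fun i => H.orderEmbOfFin hH i := by
      show (if hH : H.card = K then fun i => H.orderEmbOfFin hH i else fun _ => 0) = _
      rw [dif_pos hH]
    rw [e1]
    refine ⟨(H.orderEmbOfFin hH).injective, ?_⟩
    ext a
    rw [Finset.mem_image]
    constructor
    · rintro ⟨i, _, rfl⟩
      exact Finset.orderEmbOfFin_mem H hH i
    · intro ha
      have h1 := Finset.range_orderEmbOfFin H hH
      have h2 : a ∈ Set.range (H.orderEmbOfFin hH) := by rw [h1]; exact ha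
      obtain ⟨i, hi⟩ := h2
      exact ⟨i, Finset.mem_univ _, hi⟩
  have hinj : Set.InjOn tup (F : Set (Finset ℕ)) := by
    intro H hH H' hH' hHH
    have h1 := (htup H hH).2
    have h2 := (htup H' hH').2
    have h3 : tup H = tup H' := hHH
    rw [h3] at h1
    rw [← h1, h2]
  have hmemt : ∀ H ∈ F, ∀ i, tup H i ∈ H := by
    intro H hH i
    have h1 := (htup H hH).2
    have h2 : tup H i ∈ Finset.univ.image (tup H) := Finset.mem_image_of_mem _ (Finset.mem_univ _)
    rwa [h1] at h2
  obtain ⟨A, hA1, hA2⟩ := hx1 x hxx1 (F.image tup)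
    (by
      intro h hh
      obtain ⟨H, hH, rfl⟩ := Finset.mem_image.mp hh
      exact (htup H hH).1)
    (by
      intro h hh i
      obtain ⟨H, hH, rfl⟩ := Finset.mem_image.mp hh
      have h1 := (hF H hH).2.1 _ (hmemt H hH i)
      exact ⟨h1.1, h1.2.trans hLaL⟩)
    (by
      intro h hh p hp
      obtain ⟨H, hH, rfl⟩ := Finset.mem_image.mp hh
      obtain ⟨r, hr⟩ := (hF H hH).2.2 p hp
      exact ⟨r, fun i => hr _ (hmemt H hH i)⟩)
  rw [Finset.card_image_of_injOn hinj] at hA1
  set G : Set ℕ := {n : ℕ | x / 3 ≤ n ∧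
      (n : ℝ) + La * Real.log x ≤ x ∧ ∃ H ∈ F,
        m + 1 ≤ (H.filter (fun h => (n + h).Prime)).card ∧
        (∀ k : ℕ, 1 ≤ k → (k : ℝ) ≤ La * Real.log x → k ∉ H → ¬ (n + k).Prime) ∧
        ∀ h ∈ H, ∀ p : ℕ, p.Prime → p ∣ n + h → x ^ min c e < p} with hG
  have hrhs : min c e * (F.card : ℝ) * x / Real.log x ^ K
      ≤ c * x * ((F.card : ℝ) / Real.log x ^ K) := by
    have h1 : min c e * (F.card : ℝ) * x / Real.log x ^ K
        = min c e * (x * ((F.card : ℝ) / Real.log x ^ K)) := by ring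
    have h2 : c * x * ((F.card : ℝ) / Real.log x ^ K)
        = c * (x * ((F.card : ℝ) / Real.log x ^ K)) := by ring
    rw [h1, h2]
    apply mul_le_mul_of_nonneg_right (min_le_left _ _)
    positivity
  refine (hrhs.trans hA1).trans ?_
  have hsub : (A : Set ℕ) ⊆ G := by
    intro n hn
    obtain ⟨hn1, hn2, h, hh, hGd⟩ := hA2 n (Finset.mem_coe.mp hn)
    obtain ⟨H, hH, rfl⟩ := Finset.mem_image.mp hh
    obtain ⟨⟨g1, g2⟩, g3⟩ := hGd
    rw [(htup H hH).2] at g1 g2
    refine ⟨?_, by linarith, H, hH, g1, ?_, ?_⟩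
    · have h1 : x / 2 < (⌊x / 2⌋₊ : ℝ) + 1 := Nat.lt_floor_add_one _
      have h2 : ((⌊x / 2⌋₊ : ℕ) : ℝ) ≤ n := by exact_mod_cast hn1
      linarith
    · intro k hk1 hk2 hk3
      exact g2 k hk1 (hk2.trans hLaL) hk3
    · intro h hh p hp hd
      have h1 : h ∈ Finset.univ.image (tup H) := by rw [(htup H hH).2]; exact hh
      obtain ⟨i, _, rfl⟩ := Finset.mem_image.mp h1
      refine lt_of_le_of_lt ?_ (g3 i p hp hd)
      apply Real.rpow_le_rpow_of_exponent_le (by linarith) (min_le_right _ _)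
  have hfin : G.Finite := by
    apply (Set.finite_le_nat ⌊x⌋₊).subset
    intro n hn
    have h1 : (n : ℝ) + La * Real.log x ≤ x := hn.2.1
    show n ≤ ⌊x⌋₊
    apply Nat.le_floor
    obtain ⟨H, hH, _⟩ := hn.2.2
    have hLa0 : 0 ≤ La * Real.log x := by
      have hne : H.Nonempty := by
        rw [← Finset.card_pos, (hF H hH).1]
        omega
      obtain ⟨a, ha⟩ := hne
      have := (hF H hH).2.1 a ha
      have h2 : (0 : ℝ) ≤ a := Nat.cast_nonneg _
      linarith
    linarith
  have h1 : A.card ≤ G.ncard := by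
    rw [← Set.ncard_coe_finset]
    exact Set.ncard_le_ncard hsub hfin
  exact_mod_cast h1

/-- the relation: equal, or difference in D -/
def Rel (D : Finset ℕ) (a b : ℕ) : Prop := a = b ∨ (a < b ∧ b - a ∈ D) ∨ (b < a ∧ a - b ∈ D)

lemma card_rel (S D : Finset ℕ) (b : ℕ) [DecidablePred (fun a => Rel D a b)] :
    (S.filter (fun a => Rel D a b)).card ≤ 1 + 2 * D.card := by
  classical
  have h1 : S.filter (fun a => Rel D a b) ⊆
      {b} ∪ (D.image (fun d => b - d) ∪ D.image (fun d => b + d)) := by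
    intro a ha
    rw [Finset.mem_filter] at ha
    rcases ha.2 with h | ⟨h, h'⟩ | ⟨h, h'⟩
    · exact Finset.mem_union_left _ (Finset.mem_singleton.mpr h)
    · apply Finset.mem_union_right
      apply Finset.mem_union_left
      rw [Finset.mem_image]
      exact ⟨b - a, h', by omega⟩
    · apply Finset.mem_union_right
      apply Finset.mem_union_right
      rw [Finset.mem_image]
      exact ⟨a - b, h', by omega⟩
  refine (Finset.card_le_card h1).trans ?_
  refine (Finset.card_union_le _ _).trans ?_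
  have h2 := Finset.card_union_le (D.image (fun d => b - d)) (D.image (fun d => b + d))
  have h3 : (D.image (fun d => b - d)).card ≤ D.card := Finset.card_image_le
  have h4 : (D.image (fun d => b + d)).card ≤ D.card := Finset.card_image_le
  rw [Finset.card_singleton]
  omega

lemma exists_class (A : Finset ℕ) (P : ℕ) (hP : 0 < P) :
    ∃ r : ℕ, A.card ≤ P * (A.filter (fun a => a % P = r)).card := by
  classical
  by_contra hcon
  push Not at hcon
  have h1 := Finset.card_eq_sum_card_fiberwise (f := fun a : ℕ => a % P)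
    (s := A) (t := Finset.range P) (fun a _ => by
      rw [Finset.coe_range, Set.mem_Iio]
      exact Nat.mod_lt _ hP)
  have hA : A.Nonempty := by
    rw [Finset.nonempty_iff_ne_empty]
    rintro rfl
    have := hcon 0
    simp at this
  have h2 : P * A.card = ∑ r ∈ Finset.range P, P * (A.filter (fun a => a % P = r)).card := by
    rw [← Finset.mul_sum, ← h1]
  have h3 : ∑ r ∈ Finset.range P, P * (A.filter (fun a => a % P = r)).card
      < ∑ _r ∈ Finset.range P, A.card := by
    apply Finset.sum_lt_sum_of_nonempty (Finset.nonempty_range_iff.mpr (by omega))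
    intro r _
    exact hcon r
  rw [Finset.sum_const, Finset.card_range, smul_eq_mul] at h3
  omega

/-- allowed shifts and forbidden differences -/
theorem allowed (m : ℕ) : ∃ K M : ℕ, ∃ kap : ℝ, 0 < kap ∧ ∀ La : ℝ, ∃ c x0 : ℝ, 0 < c ∧
    ∀ x : ℝ, x0 ≤ x → ∀ A D : Finset ℕ, M ≤ A.card →
    (∀ a ∈ A, 1 ≤ a ∧ (a : ℝ) ≤ La * Real.log x) → (D.card : ℝ) ≤ kap * A.card →
    c * x * ((A.card : ℝ) / Real.log x) ^ K ≤ (Set.ncard {n : ℕ | x / 3 ≤ n ∧
      (n : ℝ) + La * Real.log x ≤ x ∧
        m + 1 ≤ (A.filter (fun a => (n + a).Prime)).card ∧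
        (∀ k : ℕ, 1 ≤ k → (k : ℝ) ≤ La * Real.log x → (n + k).Prime → k ∈ A) ∧
        ∀ a ∈ A, ∀ b ∈ A, a < b → (n + a).Prime → (n + b).Prime → b - a ∉ D} : ℝ) := by
  classical
  obtain ⟨K, hK, hfam⟩ := families m
  have hKpos : 0 < K := by omega
  set P : ℕ := WW K with hP
  have hPpos : 0 < P := WW_pos K
  have hP0 : (0 : ℝ) < P := by exact_mod_cast hPpos
  have hK0 : (0 : ℝ) < K := by exact_mod_cast hKpos
  refine ⟨K, 4 * K * P, 1 / (8 * K * P), by positivity, ?_⟩
  intro La
  obtain ⟨c, x1, hc, hx1⟩ := hfam La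
  refine ⟨c / ((2 * P) ^ K * (K.factorial : ℝ)), max x1 3, by positivity, ?_⟩
  intro x hx A D hAM hA hD
  have hxx1 : x1 ≤ x := (le_max_left _ _).trans hx
  have hx3 : 3 ≤ x := (le_max_right _ _).trans hx
  have hL0 : 0 < Real.log x := Real.log_pos (by linarith)
  obtain ⟨r, hr⟩ := exists_class A P hPpos
  set A' := A.filter (fun a => a % P = r) with hA'
  have hAA' : A' ⊆ A := Finset.filter_subset _ _
  set T := Free K A' (Rel D) with hT
  have hTc : (A'.card - K * (1 + 2 * D.card)) ^ K ≤ T.card :=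
    card_Free A' (Rel D) (1 + 2 * D.card) (fun b _ => card_rel A' D b) K
  -- the family of sets
  set F : Finset (Finset ℕ) := T.image (fun h => Finset.univ.image h) with hFdef
  have hTinj : ∀ h ∈ T, Function.Injective h := by
    intro h hh i j hij
    rw [hT, mem_Free] at hh
    rcases lt_trichotomy i j with hl | he | hg
    · exact absurd (Or.inl hij) (hh.2 i j hl)
    · exact he
    · exact absurd (Or.inl hij.symm) (hh.2 j i hg)
  have hFprop : ∀ H ∈ F, H.card = K ∧ (∀ h ∈ H, h ∈ A') ∧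
      ∀ a ∈ H, ∀ b ∈ H, a < b → b - a ∉ D := by
    intro H hH
    obtain ⟨h, hh, rfl⟩ := Finset.mem_image.mp hH
    refine ⟨?_, ?_, ?_⟩
    · rw [Finset.card_image_of_injective _ (hTinj h hh)]; simp
    · intro a ha
      simp only [Finset.mem_image, Finset.mem_univ, true_and] at ha
      obtain ⟨i, rfl⟩ := ha
      rw [hT, mem_Free] at hh
      exact hh.1 i
    · intro a ha b hb hab hd
      simp only [Finset.mem_image, Finset.mem_univ, true_and] at ha hb
      obtain ⟨i, rfl⟩ := ha
      obtain ⟨j, rfl⟩ := hb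
      rw [hT, mem_Free] at hh
      rcases lt_trichotomy i j with hl | he | hg
      · exact hh.2 i j hl (Or.inr (Or.inl ⟨hab, hd⟩))
      · rw [he] at hab; exact lt_irrefl _ hab
      · exact hh.2 j i hg (Or.inr (Or.inr ⟨hab, hd⟩))
  have hFadm : ∀ H ∈ F, ∀ p : ℕ, p.Prime → ∃ q : ℕ, ∀ h ∈ H, ¬ h ≡ q [MOD p] := by
    intro H hH p hp
    obtain ⟨h1, h2, _⟩ := hFprop H hH
    by_cases hpK : p ≤ K
    · have hpP : p ∣ P := by
        rw [hP]
        unfold WW
        apply Finset.dvd_prod_of_mem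
        rw [mem_PP]
        exact ⟨hpK, hp⟩
      refine ⟨r + 1, fun h hh hmod => ?_⟩
      have h3 : h % P = r := (Finset.mem_filter.mp (h2 h hh)).2
      have h4 : h ≡ r [MOD p] := by
        have : h ≡ r [MOD P] := by
          show h % P = r % P
          rw [← h3, Nat.mod_mod]
        exact this.of_dvd hpP
      have h5 : r ≡ r + 1 [MOD p] := h4.symm.trans hmod
      have h6 : 0 ≡ 1 [MOD p] := Nat.ModEq.add_left_cancel' r h5
      have h7 : p ∣ 1 := (Nat.modEq_zero_iff_dvd.mp h6.symm)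
      exact hp.one_lt.ne' (Nat.dvd_one.mp h7)
    · by_contra hcon
      push Not at hcon
      have h3 : Finset.range p ⊆ H.image (fun h => h % p) := by
        intro q hq
        obtain ⟨h, hh, hmod⟩ := hcon q
        rw [Finset.mem_image]
        refine ⟨h, hh, ?_⟩
        have : h % p = q % p := hmod
        rw [this, Nat.mod_eq_of_lt (Finset.mem_range.mp hq)]
      have h4 := Finset.card_le_card h3
      rw [Finset.card_range] at h4
      have h5 : (H.image (fun h => h % p)).card ≤ H.card := Finset.card_image_le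
      omega
  -- size of F
  have hFc : T.card ≤ K.factorial * F.card := by
    have h1 := Finset.card_le_mul_card_image (f := fun h : Fin K → ℕ => Finset.univ.image h) T
      K.factorial (by
        intro H hH
        have hHK := (hFprop H (by rw [hFdef]; exact hH)).1
        -- injective maps Fin K → H
        have h2 : (T.filter (fun h => Finset.univ.image h = H)).card
            ≤ Fintype.card (Fin K ↪ H) := by
          rw [← Finset.card_univ]
          apply Finset.card_le_card_of_surjOn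
            (f := fun (g : Fin K ↪ H) => (fun i => ((g i : H) : ℕ)))
          intro h hh
          rw [Finset.coe_filter, Set.mem_ofPred_eq] at hh
          have h3 : ∀ i, h i ∈ H := by
            intro i
            rw [← hh.2]
            exact Finset.mem_image_of_mem _ (Finset.mem_univ _)
          refine ⟨⟨fun i => ⟨h i, h3 i⟩, fun i j hij => hTinj h hh.1 (by
            have := congrArg Subtype.val hij
            exact this)⟩, by simp, ?_⟩
          funext i
          rfl
        refine h2.trans ?_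
        rw [Fintype.card_embedding_eq, Fintype.card_fin, Fintype.card_coe, hHK,
          Nat.descFactorial_self])
    exact h1
  have hlow := hx1 x hxx1 F (by
    intro H hH
    obtain ⟨h1, h2, _⟩ := hFprop H hH
    exact ⟨h1, fun h hh => hA h (hAA' (h2 h hh)), hFadm H hH⟩)
  -- numerical part
  have hAc0 : (0 : ℝ) ≤ A.card := Nat.cast_nonneg _
  have hnum : ((A.card : ℝ) / (2 * P)) ^ K ≤ (T.card : ℝ) := by
    have h1 : (A.card : ℝ) ≤ P * A'.card := by exact_mod_cast hr
    have h2 : ((4 * K * P : ℕ) : ℝ) ≤ A.card := by exact_mod_cast hAM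
    push_cast at h2
    have h3 : (D.card : ℝ) * (8 * K * P) ≤ A.card := by
      have := hD
      rw [div_mul_eq_mul_div, one_mul, le_div_iff₀ (by positivity)] at this
      exact this
    have h4 : (A.card : ℝ) / (2 * P) ≤ (A'.card : ℝ) - K * (1 + 2 * D.card) := by
      rw [div_le_iff₀ (by positivity)]
      nlinarith
    have h5 : (A'.card : ℝ) - K * (1 + 2 * D.card) ≤ ((A'.card - K * (1 + 2 * D.card) : ℕ) : ℝ) := by
      have h6 : A'.card ≤ (A'.card - K * (1 + 2 * D.card)) + K * (1 + 2 * D.card) := by omega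
      have h7 : (A'.card : ℝ) ≤ ((A'.card - K * (1 + 2 * D.card) : ℕ) : ℝ)
          + ((K * (1 + 2 * D.card) : ℕ) : ℝ) := by exact_mod_cast h6
      push_cast at h7 ⊢
      linarith
    calc ((A.card : ℝ) / (2 * P)) ^ K ≤ ((A'.card - K * (1 + 2 * D.card) : ℕ) : ℝ) ^ K :=
          pow_le_pow_left₀ (by positivity) (h4.trans h5) K
      _ ≤ (T.card : ℝ) := by exact_mod_cast hTc
  have hTF : (T.card : ℝ) ≤ (K.factorial : ℝ) * (F.card : ℝ) := by exact_mod_cast hFc
  have hfac0 : (0 : ℝ) < (K.factorial : ℝ) := by exact_mod_cast Nat.factorial_pos K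
  have hcmp : c / ((2 * P) ^ K * (K.factorial : ℝ)) * x * ((A.card : ℝ) / Real.log x) ^ K
      ≤ c * (F.card : ℝ) * x / Real.log x ^ K := by
    have h1 : c / ((2 * P) ^ K * (K.factorial : ℝ)) * x * ((A.card : ℝ) / Real.log x) ^ K
        = c * (((A.card : ℝ) / (2 * P)) ^ K / (K.factorial : ℝ)) * x / Real.log x ^ K := by
      rw [div_pow, div_pow]
      field_simp
    rw [h1]
    have h2 : ((A.card : ℝ) / (2 * P)) ^ K / (K.factorial : ℝ) ≤ (F.card : ℝ) := by
      rw [div_le_iff₀ hfac0]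
      linarith [hnum.trans hTF]
    gcongr
  refine hcmp.trans (hlow.trans ?_)
  have hmono : {n : ℕ | x / 3 ≤ n ∧
      (n : ℝ) + La * Real.log x ≤ x ∧ ∃ H ∈ F,
        m + 1 ≤ (H.filter (fun h => (n + h).Prime)).card ∧
        (∀ k : ℕ, 1 ≤ k → (k : ℝ) ≤ La * Real.log x → k ∉ H → ¬ (n + k).Prime) ∧
        ∀ h ∈ H, ∀ p : ℕ, p.Prime → p ∣ n + h → x ^ c < p} ⊆ {n : ℕ | x / 3 ≤ n ∧
      (n : ℝ) + La * Real.log x ≤ x ∧
        m + 1 ≤ (A.filter (fun a => (n + a).Prime)).card ∧
        (∀ k : ℕ, 1 ≤ k → (k : ℝ) ≤ La * Real.log x → (n + k).Prime → k ∈ A) ∧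
        ∀ a ∈ A, ∀ b ∈ A, a < b → (n + a).Prime → (n + b).Prime → b - a ∉ D} := by
    rintro n ⟨h1, h2, H, hH, h3, h4, _⟩
    obtain ⟨g1, g2, g3⟩ := hFprop H hH
    refine ⟨h1, h2, ?_, ?_, ?_⟩
    · refine h3.trans (Finset.card_le_card ?_)
      intro a ha
      rw [Finset.mem_filter] at ha ⊢
      exact ⟨hAA' (g2 a ha.1), ha.2⟩
    · intro k hk1 hk2 hk3
      by_contra hcon
      have : k ∉ H := fun h => hcon (hAA' (g2 k h))
      exact h4 k hk1 hk2 this hk3
    · intro a ha b hb hab hpa hpb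
      have haH : a ∈ H := by
        by_contra hcon
        exact h4 a (hA a ha).1 (hA a ha).2 hcon hpa
      have hbH : b ∈ H := by
        by_contra hcon
        exact h4 b (hA b hb).1 (hA b hb).2 hcon hpb
      exact g3 a haH b hbH hab
  have hfin : {n : ℕ | x / 3 ≤ n ∧
      (n : ℝ) + La * Real.log x ≤ x ∧
        m + 1 ≤ (A.filter (fun a => (n + a).Prime)).card ∧
        (∀ k : ℕ, 1 ≤ k → (k : ℝ) ≤ La * Real.log x → (n + k).Prime → k ∈ A) ∧
        ∀ a ∈ A, ∀ b ∈ A, a < b → (n + a).Prime → (n + b).Prime → b - a ∉ D}.Finite := by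
    apply (Set.finite_le_nat ⌊x⌋₊).subset
    intro n hn
    have h1 : (n : ℝ) + La * Real.log x ≤ x := hn.2.1
    show n ≤ ⌊x⌋₊
    apply Nat.le_floor
    have hne : (A.filter (fun a => (n + a).Prime)).Nonempty := by
      rw [← Finset.card_pos]
      have := hn.2.2.1
      omega
    obtain ⟨a, ha⟩ := hne
    have h2 := hA a (Finset.mem_filter.mp ha).1
    have h3 : (0 : ℝ) ≤ a := Nat.cast_nonneg _
    linarith
  exact_mod_cast Set.ncard_le_ncard hmono hfin

end H91CK
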