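import Mathlib
import Pool.Agent.H17.Crt

/-! Number of classes modulo the product of the primes up to y in which all shifts from H are
coprime, for H inside one class modulo the small primes. -/

set_option autoImplicit false

open Finset Pool.Agent.H17

namespace H91CK

lemma prod_one_sub {S : Finset ℕ} (f : ℕ → ℝ) (h0 : ∀ p ∈ S, 0 ≤ f p) (h1 : ∀ p ∈ S, f p ≤ 1) :
    1 - ∑ p ∈ S, f p ≤ ∏ p ∈ S, (1 - f p) ∧ 0 ≤ ∏ p ∈ S, (1 - f p) ∧ ∏ p ∈ S, (1 - f p) ≤ 1 := by
  classical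
  induction S using Finset.induction_on with
  | empty => simp
  | insert q S hq ih =>
    obtain ⟨i1, i2, i3⟩ := ih (fun p hp => h0 p (Finset.mem_insert_of_mem hp))
      (fun p hp => h1 p (Finset.mem_insert_of_mem hp))
    have hq0 := h0 q (Finset.mem_insert_self _ _)
    have hq1 := h1 q (Finset.mem_insert_self _ _)
    rw [Finset.prod_insert hq, Finset.sum_insert hq]
    refine ⟨?_, mul_nonneg (by linarith) i2, ?_⟩
    · nlinarith
    · exact mul_le_one₀ (by linarith) i2 i3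

/-- Bernoulli of second order -/
lemma bern2 (t : ℝ) (h0 : 0 ≤ t) (h1 : t ≤ 1) (K : ℕ) :
    (1 - t) ^ K ≤ 1 - K * t + (K : ℝ) ^ 2 * t ^ 2 / 2 := by
  induction K with
  | zero => simp
  | succ K ih =>
    have h2 : (1 - t) ^ (K + 1) ≤ (1 - K * t + (K : ℝ) ^ 2 * t ^ 2 / 2) * (1 - t) := by
      rw [pow_succ]
      exact mul_le_mul_of_nonneg_right ih (by linarith)
    refine h2.trans ?_
    push_cast
    have h3 : 0 ≤ (K : ℝ) ^ 2 * t ^ 3 := by positivity
    nlinarith [sq_nonneg t, h3]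

lemma one_factor {K p : ℕ} (hp : 2 * K ≤ p) (hp1 : 1 ≤ p) :
    (1 - 1 / (p : ℝ)) ^ K * (1 - (K : ℝ) ^ 2 / (p : ℝ) ^ 2) ≤ 1 - K / (p : ℝ) := by
  have hp0 : (0 : ℝ) < p := by exact_mod_cast hp1
  have hKp : 2 * (K : ℝ) ≤ p := by exact_mod_cast hp
  set t : ℝ := 1 / (p : ℝ) with ht
  have ht0 : 0 ≤ t := by positivity
  have ht1 : t ≤ 1 := by
    rw [ht, div_le_one hp0]; exact_mod_cast hp1
  have hu : (K : ℝ) * t ≤ 1 / 2 := by
    rw [ht, mul_one_div, div_le_iff₀ hp0]; linarith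
  have hu0 : 0 ≤ (K : ℝ) * t := by positivity
  have h1 := bern2 t ht0 ht1 K
  have e1 : (K : ℝ) ^ 2 / (p : ℝ) ^ 2 = (K * t) ^ 2 := by rw [ht]; field_simp
  have e2 : (K : ℝ) / (p : ℝ) = K * t := by rw [ht]; field_simp
  rw [e1, e2]
  have h2 : (0 : ℝ) ≤ 1 - (K * t) ^ 2 := by nlinarith
  refine (mul_le_mul_of_nonneg_right h1 h2).trans ?_
  have h3 : (K : ℝ) ^ 2 * t ^ 2 = (K * t) ^ 2 := by ring
  rw [h3]
  set u : ℝ := K * t
  nlinarith [sq_nonneg u, mul_nonneg hu0 (sq_nonneg u), sq_nonneg (u ^ 2)]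

lemma tail_sum (N y : ℕ) (hN : 1 ≤ N) (K : ℕ) (hK : 2 * K ^ 2 ≤ N) :
    ∑ p ∈ (PP y).filter (fun p => N < p), (K : ℝ) ^ 2 / (p : ℝ) ^ 2 ≤ 1 / 2 := by
  rcases Nat.lt_or_ge y N with h | h
  · have : (PP y).filter (fun p => N < p) = ∅ := by
      rw [Finset.filter_eq_empty_iff]
      intro p hp
      have := (mem_PP.mp hp).1
      omega
    rw [this]
    simp
  · have h1 : ∑ p ∈ (PP y).filter (fun p => N < p), (K : ℝ) ^ 2 / (p : ℝ) ^ 2
        ≤ ∑ p ∈ Finset.Ioc N y, (K : ℝ) ^ 2 / (p : ℝ) ^ 2 := by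
      apply Finset.sum_le_sum_of_subset_of_nonneg
      · intro p hp
        rw [Finset.mem_filter, mem_PP] at hp
        rw [Finset.mem_Ioc]
        exact ⟨hp.2, hp.1.1⟩
      · intro p _ _
        positivity
    refine h1.trans ?_
    have h2 : ∑ p ∈ Finset.Ioc N y, (K : ℝ) ^ 2 / (p : ℝ) ^ 2
        = (K : ℝ) ^ 2 * ∑ p ∈ Finset.Ioc N y, ((p : ℝ) ^ 2)⁻¹ := by
      rw [Finset.mul_sum]
      apply Finset.sum_congr rfl
      intro p _
      rw [div_eq_mul_inv]
    rw [h2]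
    have h3 := sum_Ioc_inv_sq_le_sub (α := ℝ) (k := N) (n := y) (by omega) h
    have hN0 : (0 : ℝ) < N := by exact_mod_cast hN
    have h4 : ∑ p ∈ Finset.Ioc N y, ((p : ℝ) ^ 2)⁻¹ ≤ (N : ℝ)⁻¹ := by
      have : (0 : ℝ) ≤ (y : ℝ)⁻¹ := by positivity
      linarith
    calc (K : ℝ) ^ 2 * ∑ p ∈ Finset.Ioc N y, ((p : ℝ) ^ 2)⁻¹ ≤ (K : ℝ) ^ 2 * (N : ℝ)⁻¹ :=
          mul_le_mul_of_nonneg_left h4 (by positivity)
      _ ≤ 1 / 2 := by
          rw [← div_eq_mul_inv, div_le_div_iff₀ hN0 (by norm_num)]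
          have : (2 * K ^ 2 : ℝ) ≤ N := by exact_mod_cast hK
          linarith

/-- residues b mod p with p ∤ X + b + h : exactly p - 1 -/
lemma card_miss_one (X h : ℕ) {p : ℕ} (hp : 0 < p) :
    ((Finset.range p).filter (fun b => p ∣ X + b + h)).card ≤ 1 := by
  rw [Finset.card_le_one]
  intro b hb b' hb'
  rw [Finset.mem_filter, Finset.mem_range] at hb hb'
  have h1 : (X + b + h : ℕ) ≡ X + b' + h [MOD p] :=
    ((Nat.modEq_zero_iff_dvd.mpr hb.2).trans (Nat.modEq_zero_iff_dvd.mpr hb'.2).symm)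
  have h2 : X + b ≡ X + b' [MOD p] := Nat.ModEq.add_right_cancel' h h1
  have h3 : b ≡ b' [MOD p] := Nat.ModEq.add_left_cancel' X h2
  exact Nat.ModEq.eq_of_lt_of_lt h3 hb.1 hb'.1

lemma card_miss_H (X : ℕ) (H : Finset ℕ) {p : ℕ} (hp : 0 < p) :
    p - H.card ≤ ((Finset.range p).filter (fun b => ∀ h ∈ H, ¬ p ∣ X + b + h)).card := by
  classical
  have h1 : Finset.range p \ H.biUnion (fun h => (Finset.range p).filter (fun b => p ∣ X + b + h))
      ⊆ (Finset.range p).filter (fun b => ∀ h ∈ H, ¬ p ∣ X + b + h) := by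
    intro b hb
    rw [Finset.mem_sdiff] at hb
    rw [Finset.mem_filter]
    refine ⟨hb.1, fun h hh hd => hb.2 ?_⟩
    rw [Finset.mem_biUnion]
    exact ⟨h, hh, Finset.mem_filter.mpr ⟨hb.1, hd⟩⟩
  have h2 := Finset.card_le_card h1
  have h3 := Finset.le_card_sdiff
    (H.biUnion (fun h => (Finset.range p).filter (fun b => p ∣ X + b + h))) (Finset.range p)
  have h4 : (H.biUnion (fun h => (Finset.range p).filter (fun b => p ∣ X + b + h))).card ≤ H.card := by
    refine Finset.card_biUnion_le.trans ?_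
    refine (Finset.sum_le_sum (fun h _ => card_miss_one X h hp)).trans ?_
    simp
  rw [Finset.card_range] at h3
  omega

lemma card_miss_same (X : ℕ) (H : Finset ℕ) {p : ℕ} (hp : 0 < p)
    (hH : ∀ h ∈ H, ∀ h' ∈ H, h ≡ h' [MOD p]) :
    p - 1 ≤ ((Finset.range p).filter (fun b => ∀ h ∈ H, ¬ p ∣ X + b + h)).card := by
  classical
  rcases H.eq_empty_or_nonempty with rfl | ⟨h0, hh0⟩
  · have : (Finset.range p).filter (fun b => ∀ h ∈ (∅ : Finset ℕ), ¬ p ∣ X + b + h)
        = Finset.range p := by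
      rw [Finset.filter_eq_self]
      intro b _ h hh
      simp at hh
    rw [this, Finset.card_range]
    omega
  · have h1 : (Finset.range p).filter (fun b => ∀ h ∈ H, ¬ p ∣ X + b + h)
        = (Finset.range p).filter (fun b => ∀ h ∈ ({h0} : Finset ℕ), ¬ p ∣ X + b + h) := by
      apply Finset.filter_congr
      intro b _
      constructor
      · intro h h' hh'
        rw [Finset.mem_singleton] at hh'
        subst hh'
        exact h _ hh0
      · intro h h' hh' hd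
        apply h h0 (Finset.mem_singleton_self _)
        have h2 : X + b + h' ≡ X + b + h0 [MOD p] := Nat.ModEq.add_left _ (hH h' hh' h0 hh0)
        exact (h2.dvd_iff dvd_rfl).mp hd
    rw [h1]
    have := card_miss_H X {h0} hp
    rwa [Finset.card_singleton] at this

lemma card_miss_adm (X : ℕ) (H : Finset ℕ) {p : ℕ} (hp : 0 < p)
    (hH : ∃ r : ℕ, ∀ h ∈ H, ¬ h ≡ r [MOD p]) :
    1 ≤ ((Finset.range p).filter (fun b => ∀ h ∈ H, ¬ p ∣ X + b + h)).card := by
  obtain ⟨r, hr⟩ := hH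
  rw [Nat.one_le_iff_ne_zero, Finset.card_ne_zero]
  -- b with X + b + r divisible by p
  have h1 : ∃ b < p, p ∣ X + b + r := by
    refine ⟨(p - (X + r) % p) % p, Nat.mod_lt _ hp, ?_⟩
    have h2 : X + (p - (X + r) % p) % p + r ≡ X + (p - (X + r) % p) + r [MOD p] :=
      ((Nat.mod_modEq _ p).add_left X).add_right r
    rw [← Nat.modEq_zero_iff_dvd]
    refine h2.trans ?_
    have h3 : X + (p - (X + r) % p) + r = (X + r) + (p - (X + r) % p) := by ring
    rw [h3]
    have h4 : (X + r) + (p - (X + r) % p) ≡ (X + r) % p + (p - (X + r) % p) [MOD p] :=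
      (Nat.mod_modEq (X + r) p).symm.add_right _
    refine h4.trans ?_
    have h5 : (X + r) % p + (p - (X + r) % p) = p := by
      have := (Nat.mod_lt (X + r) hp).le
      omega
    rw [h5]
    exact (Nat.modEq_zero_iff_dvd.mpr dvd_rfl)
  obtain ⟨b, hb, hbd⟩ := h1
  refine ⟨b, Finset.mem_filter.mpr ⟨Finset.mem_range.mpr hb, fun h hh hd => hr h hh ?_⟩⟩
  have h6 : X + b + h ≡ X + b + r [MOD p] :=
    (Nat.modEq_zero_iff_dvd.mpr hd).trans (Nat.modEq_zero_iff_dvd.mpr hbd).symm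
  exact Nat.ModEq.add_left_cancel' _ h6

/-- the number of classes -/
theorem card_classes (y N X K : ℕ) (hN1 : 1 ≤ N) (hNK : 2 * K ≤ N) (hNK2 : 2 * K ^ 2 ≤ N)
    (H : Finset ℕ) (hH : H.card ≤ K)
    (hc : ∀ p : ℕ, p.Prime → ∃ r : ℕ, ∀ h ∈ H, ¬ h ≡ r [MOD p]) :
    (WW y : ℝ) / (2 * (WW N : ℝ)) * (((WW y).totient : ℝ) / (WW y : ℝ)) ^ K ≤
      (((Finset.range (WW y)).filter (fun b => ∀ h ∈ H, (X + b + h).Coprime (WW y))).card : ℝ) := by
  classical
  have h1 : (Finset.range (WW y)).filter (fun b => ∀ h ∈ H, (X + b + h).Coprime (WW y))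
      = (Finset.range (∏ p ∈ PP y, p)).filter (fun b => ∀ p ∈ PP y, ∀ h ∈ H, ¬ p ∣ X + b + h) := by
    apply Finset.filter_congr
    intro b _
    simp_rw [coprime_WW]
    constructor
    · intro h p hp k hk
      exact h k hk p hp
    · intro h k hk p hp
      exact h p hp k hk
  rw [h1, card_crt (PP y) (fun p hp => (mem_PP.mp hp).2) (fun p b => ∀ h ∈ H, ¬ p ∣ X + b + h)]
  · rw [Nat.cast_prod]
    have hW : (WW y : ℝ) = ∏ p ∈ PP y, (p : ℝ) := by unfold WW; rw [Nat.cast_prod]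
    have hphi : ((WW y).totient : ℝ) / (WW y : ℝ) = ∏ p ∈ PP y, (1 - 1 / (p : ℝ)) := by
      rw [totient_WW, hW, ← Finset.prod_div_distrib]
      apply Finset.prod_congr rfl
      intro p hp
      have : (p : ℝ) ≠ 0 := by exact_mod_cast (mem_PP.mp hp).2.ne_zero
      field_simp
    rw [hphi, hW, ← Finset.prod_pow]
    have hp1 : ∀ p ∈ PP y, (2 : ℝ) ≤ p := fun p hp => by exact_mod_cast (mem_PP.mp hp).2.two_le
    have hle1 : ∀ p ∈ PP y, 0 ≤ (1 - 1 / (p : ℝ)) ∧ (1 - 1 / (p : ℝ)) ≤ 1 := by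
      intro p hp
      have hp2 := hp1 p hp
      have h7 : (1 : ℝ) / p ≤ 1 := by rw [div_le_one (by linarith)]; linarith
      have h8 : 0 ≤ (1 : ℝ) / p := by positivity
      exact ⟨by linarith, by linarith⟩
    -- lower bound for each factor
    have hfac : ∀ p ∈ PP y, (p : ℝ) * (1 - 1 / (p : ℝ)) ^ K
        * (if N < p then 1 - (K : ℝ) ^ 2 / (p : ℝ) ^ 2 else 1 / (p : ℝ))
        ≤ (((Finset.range p).filter (fun b => ∀ h ∈ H, ¬ p ∣ X + b + h)).card : ℝ) := by
      intro p hp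
      have hpp := (mem_PP.mp hp).2
      have hp2 := hp1 p hp
      have hp0 : (0 : ℝ) < p := by linarith
      by_cases hNp : N < p
      · rw [if_pos hNp]
        have h2 := one_factor (K := K) (p := p) (by omega) hpp.one_le
        have h3 := card_miss_H X H hpp.pos
        have h4 : (p : ℝ) - K ≤
            (((Finset.range p).filter (fun b => ∀ h ∈ H, ¬ p ∣ X + b + h)).card : ℝ) := by
          have h5 : p ≤ ((Finset.range p).filter (fun b => ∀ h ∈ H, ¬ p ∣ X + b + h)).card + K := by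
            omega
          have h6 : (p : ℝ) ≤
            (((Finset.range p).filter (fun b => ∀ h ∈ H, ¬ p ∣ X + b + h)).card : ℝ) + K := by
            exact_mod_cast h5
          linarith
        refine le_trans ?_ h4
        calc (p : ℝ) * (1 - 1 / (p : ℝ)) ^ K * (1 - (K : ℝ) ^ 2 / (p : ℝ) ^ 2)
            = (p : ℝ) * ((1 - 1 / (p : ℝ)) ^ K * (1 - (K : ℝ) ^ 2 / (p : ℝ) ^ 2)) := by ring
          _ ≤ (p : ℝ) * (1 - K / (p : ℝ)) := mul_le_mul_of_nonneg_left h2 hp0.le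
          _ = (p : ℝ) - K := by field_simp
      · rw [if_neg hNp]
        have h3 := card_miss_adm X H hpp.pos (hc p hpp)
        have h4 : (1 : ℝ) ≤
            (((Finset.range p).filter (fun b => ∀ h ∈ H, ¬ p ∣ X + b + h)).card : ℝ) := by
          exact_mod_cast h3
        refine le_trans ?_ h4
        have h8 : (1 - 1 / (p : ℝ)) ^ K ≤ 1 := pow_le_one₀ (hle1 p hp).1 (hle1 p hp).2
        calc (p : ℝ) * (1 - 1 / (p : ℝ)) ^ K * (1 / (p : ℝ)) = (1 - 1 / (p : ℝ)) ^ K := by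
              field_simp
          _ ≤ 1 := h8
    have hg0 : ∀ p ∈ PP y, 0 ≤ (if N < p then 1 - (K : ℝ) ^ 2 / (p : ℝ) ^ 2 else 1 / (p : ℝ)) := by
      intro p hp
      have hp2 := hp1 p hp
      have hp0 : (0 : ℝ) < p := by linarith
      split_ifs with hNp
      · have h8 : (K : ℝ) ^ 2 / (p : ℝ) ^ 2 ≤ 1 := by
          rw [div_le_one (by positivity)]
          apply pow_le_pow_left₀ (Nat.cast_nonneg _)
          exact_mod_cast (by omega : K ≤ p)
        linarith
      · positivity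
    have hfac0 : ∀ p ∈ PP y, 0 ≤ (p : ℝ) * (1 - 1 / (p : ℝ)) ^ K
        * (if N < p then 1 - (K : ℝ) ^ 2 / (p : ℝ) ^ 2 else 1 / (p : ℝ)) := by
      intro p hp
      exact mul_nonneg (mul_nonneg (Nat.cast_nonneg _) (pow_nonneg (hle1 p hp).1 _)) (hg0 p hp)
    refine le_trans ?_ (Finset.prod_le_prod hfac0 hfac)
    rw [Finset.prod_mul_distrib, Finset.prod_mul_distrib]
    have h10 : (1 : ℝ) / 2 ≤ ∏ p ∈ (PP y).filter (fun p => N < p), (1 - (K : ℝ) ^ 2 / (p : ℝ) ^ 2) := by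
      have h11 := (prod_one_sub (S := (PP y).filter (fun p => N < p))
        (fun p => (K : ℝ) ^ 2 / (p : ℝ) ^ 2) (fun p _ => by positivity) (fun p hp => by
          rw [Finset.mem_filter] at hp
          have hp2 := hp1 p hp.1
          rw [div_le_one (by positivity)]
          apply pow_le_pow_left₀ (Nat.cast_nonneg _)
          have := hp.2
          exact_mod_cast (by omega : K ≤ p))).1
      have h12 := tail_sum N y hN1 K hNK2
      linarith
    have h14 : (1 : ℝ) / (WW N : ℝ) ≤ ∏ p ∈ (PP y).filter (fun p => ¬ N < p), (1 / (p : ℝ)) := by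
      have h15 : (WW N : ℝ) = ∏ p ∈ PP N, (p : ℝ) := by unfold WW; rw [Nat.cast_prod]
      have h16 : (1 : ℝ) / (WW N : ℝ) = ∏ p ∈ PP N, (1 / (p : ℝ)) := by
        rw [h15, Finset.prod_div_distrib, Finset.prod_const_one]
      rw [h16]
      have hsub : (PP y).filter (fun p => ¬ N < p) ⊆ PP N := by
        intro p hp
        rw [Finset.mem_filter, mem_PP] at hp
        rw [mem_PP]
        exact ⟨by omega, hp.1.2⟩
      rw [← Finset.prod_sdiff hsub]
      have h18 : ∏ p ∈ PP N \ (PP y).filter (fun p => ¬ N < p), (1 / (p : ℝ)) ≤ 1 := by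
        apply Finset.prod_le_one
        · intro p _; positivity
        · intro p hp
          have : (1 : ℝ) ≤ p := by
            exact_mod_cast (mem_PP.mp (Finset.mem_sdiff.mp hp).1).2.one_le
          rw [div_le_one (by linarith)]
          exact this
      have h19 : 0 ≤ ∏ p ∈ (PP y).filter (fun p => ¬ N < p), (1 / (p : ℝ)) :=
        Finset.prod_nonneg (fun p _ => by positivity)
      nlinarith
    have h9 : 1 / (2 * (WW N : ℝ)) ≤
        ∏ p ∈ PP y, (if N < p then 1 - (K : ℝ) ^ 2 / (p : ℝ) ^ 2 else 1 / (p : ℝ)) := by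
      rw [Finset.prod_ite]
      have h17 : (0 : ℝ) ≤ 1 / (WW N : ℝ) := by positivity
      calc 1 / (2 * (WW N : ℝ)) = 1 / 2 * (1 / (WW N : ℝ)) := by ring
        _ ≤ _ := mul_le_mul h10 h14 h17 (by linarith)
    have h13 : 0 ≤ (∏ p ∈ PP y, (p : ℝ)) * ∏ p ∈ PP y, (1 - 1 / (p : ℝ)) ^ K := by
      apply mul_nonneg
      · exact Finset.prod_nonneg (fun p _ => Nat.cast_nonneg _)
      · exact Finset.prod_nonneg (fun p hp => pow_nonneg (hle1 p hp).1 _)
    calc (∏ p ∈ PP y, (p : ℝ)) / (2 * (WW N : ℝ)) * ∏ p ∈ PP y, (1 - 1 / (p : ℝ)) ^ K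
        = (∏ p ∈ PP y, (p : ℝ)) * (∏ p ∈ PP y, (1 - 1 / (p : ℝ)) ^ K) * (1 / (2 * (WW N : ℝ))) := by
          ring
      _ ≤ _ := mul_le_mul_of_nonneg_left h9 h13
  · intro p _ t
    have : ∀ s : ℕ, p ∣ X + t + s ↔ p ∣ X + t % p + s := by
      intro s
      exact (((Nat.mod_modEq t p).symm.add_left X).add_right s).dvd_iff dvd_rfl
    constructor
    · intro h s hs
      rw [← this]
      exact h s hs
    · intro h s hs
      rw [this]
      exact h s hs

end H91CK
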