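import Mathlib
import Pool.Agent.H91.CH.Dbl

/-! Counting tuples that avoid a relation, and the second moment method for an arbitrary family of
tuples. -/

set_option autoImplicit false

open Finset

namespace H91CK

/-- the tuples of elements of `S` without related entries -/
noncomputable def Free (K : ℕ) (S : Finset ℕ) (R : ℕ → ℕ → Prop) : Finset (Fin K → ℕ) := by
  classical
  exact (Fintype.piFinset (fun _ : Fin K => S)).filter (fun h => ∀ i j : Fin K, i < j → ¬ R (h i) (h j))

lemma mem_Free {K : ℕ} {S : Finset ℕ} {R : ℕ → ℕ → Prop} {h : Fin K → ℕ} :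
    h ∈ Free K S R ↔ (∀ i, h i ∈ S) ∧ ∀ i j : Fin K, i < j → ¬ R (h i) (h j) := by
  classical
  unfold Free
  rw [Finset.mem_filter, Fintype.mem_piFinset]

lemma card_Free (S : Finset ℕ) (R : ℕ → ℕ → Prop) (M : ℕ) [DecidableRel R]
    (hM : ∀ b ∈ S, (S.filter (fun a => R a b)).card ≤ M) (K : ℕ) :
    (S.card - K * M) ^ K ≤ (Free K S R).card := by
  classical
  induction K with
  | zero =>
    have : (fun i : Fin 0 => i.elim0 : Fin 0 → ℕ) ∈ Free 0 S R := by
      rw [mem_Free]
      exact ⟨fun i => i.elim0, fun i => i.elim0⟩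
    rw [pow_zero]
    exact Finset.card_pos.mpr ⟨_, this⟩
  | succ K ih =>
    -- fibres over the tail
    have hfib : ∀ g ∈ Free K S R, S.card - (K + 1) * M ≤
        ((Free (K + 1) S R).filter (fun h => Fin.tail h = g)).card := by
      intro g hg
      rw [mem_Free] at hg
      set Bad : Finset ℕ := (Finset.univ : Finset (Fin K)).biUnion
        (fun j => S.filter (fun a => R a (g j))) with hBad
      have hB : Bad.card ≤ K * M := by
        rw [hBad]
        refine Finset.card_biUnion_le.trans ?_
        refine (Finset.sum_le_sum (fun j _ => hM (g j) (hg.1 j))).trans ?_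
        simp
      have h1 : ((S \ Bad).image (fun a => (Fin.cons a g : Fin (K + 1) → ℕ)))
          ⊆ (Free (K + 1) S R).filter (fun h => Fin.tail h = g) := by
        intro h hh
        rw [Finset.mem_image] at hh
        obtain ⟨a, ha, rfl⟩ := hh
        rw [Finset.mem_sdiff] at ha
        rw [Finset.mem_filter, mem_Free]
        refine ⟨⟨?_, ?_⟩, ?_⟩
        · intro i
          refine Fin.cases ?_ (fun j => ?_) i
          · simpa using ha.1
          · simpa using hg.1 j
        · intro i j hij
          revert hij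
          refine Fin.cases ?_ (fun i' => ?_) i
          · refine Fin.cases ?_ (fun j' => ?_) j
            · intro h; exact absurd h (lt_irrefl _)
            · intro _
              simp only [Fin.cons_zero, Fin.cons_succ]
              intro hR
              apply ha.2
              rw [hBad, Finset.mem_biUnion]
              exact ⟨j', Finset.mem_univ _, Finset.mem_filter.mpr ⟨ha.1, hR⟩⟩
          · refine Fin.cases ?_ (fun j' => ?_) j
            · intro h; exact absurd h (Fin.not_lt_zero _)
            · intro h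
              simp only [Fin.cons_succ]
              exact hg.2 i' j' (Fin.succ_lt_succ_iff.mp h)
        · exact Fin.tail_cons _ _
      have h2 := Finset.card_le_card h1
      rw [Finset.card_image_of_injective] at h2
      · have h3 := Finset.le_card_sdiff Bad S
        have h4 : (K + 1) * M = K * M + M := by ring
        omega
      · intro a a' haa
        have := congrFun haa 0
        simpa using this
    have hmap : ∀ h ∈ Free (K + 1) S R, Fin.tail h ∈ Free K S R := by
      intro h hh
      rw [mem_Free] at hh ⊢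
      refine ⟨fun i => hh.1 i.succ, fun i j hij => hh.2 i.succ j.succ (Fin.succ_lt_succ_iff.mpr hij)⟩
    have hcard := Finset.card_eq_sum_card_fiberwise (f := fun h : Fin (K + 1) → ℕ => Fin.tail h)
      (s := Free (K + 1) S R) (t := Free K S R) (fun h hh => hmap h hh)
    rw [hcard]
    calc (S.card - (K + 1) * M) ^ (K + 1)
        = (S.card - (K + 1) * M) ^ K * (S.card - (K + 1) * M) := pow_succ _ _
      _ ≤ (S.card - K * M) ^ K * (S.card - (K + 1) * M) := by
          apply Nat.mul_le_mul_right
          apply Nat.pow_le_pow_left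
          have : K * M ≤ (K + 1) * M := Nat.mul_le_mul_right _ (Nat.le_succ _)
          omega
      _ ≤ (Free K S R).card * (S.card - (K + 1) * M) := Nat.mul_le_mul_right _ ih
      _ = ∑ _g ∈ Free K S R, (S.card - (K + 1) * M) := by rw [Finset.sum_const, smul_eq_mul]
      _ ≤ _ := Finset.sum_le_sum hfib

lemma card_union_inj {K : ℕ} {h h' : Fin K → ℕ} (hh : Function.Injective h)
    (hh' : Function.Injective h') :
    (Finset.univ.image h ∪ Finset.univ.image h').card
      = K + (Finset.univ.filter (fun i => h' i ∉ Finset.univ.image h)).card := by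
  have h1 : Finset.univ.image h ∪ Finset.univ.image h'
      = Finset.univ.image h ∪ (Finset.univ.filter (fun i => h' i ∉ Finset.univ.image h)).image h' := by
    ext a
    constructor
    · intro ha
      rcases Finset.mem_union.mp ha with ha | ha
      · exact Finset.mem_union_left _ ha
      · by_cases hb : a ∈ Finset.univ.image h
        · exact Finset.mem_union_left _ hb
        · apply Finset.mem_union_right
          obtain ⟨i, _, rfl⟩ := Finset.mem_image.mp ha
          exact Finset.mem_image_of_mem _ (Finset.mem_filter.mpr ⟨Finset.mem_univ _, hb⟩)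
    · intro ha
      rcases Finset.mem_union.mp ha with ha | ha
      · exact Finset.mem_union_left _ ha
      · obtain ⟨i, _, rfl⟩ := Finset.mem_image.mp ha
        exact Finset.mem_union_right _ (Finset.mem_image_of_mem _ (Finset.mem_univ _))
  rw [h1, Finset.card_union_of_disjoint]
  · rw [Finset.card_image_of_injective _ hh, Finset.card_image_of_injective _ hh']
    simp
  · rw [Finset.disjoint_left]
    intro a ha hb
    obtain ⟨i, hi, rfl⟩ := Finset.mem_image.mp hb
    exact (Finset.mem_filter.mp hi).2 ha

lemma sum_pairs2 {K : ℕ} (S : Finset ℕ) (F : Finset (Fin K → ℕ)) (hF : ∀ h ∈ F, ∀ i, h i ∈ S)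
    (rho v : ℝ) (hrho : 0 ≤ rho) (hv : rho * S.card ≤ v) (h : Fin K → ℕ) :
    ∑ h' ∈ F, rho ^ (K + (Finset.univ.filter (fun i => h' i ∉ Finset.univ.image h)).card)
      ≤ rho ^ K * (K + v) ^ K := by
  classical
  have h1 : ∀ h' : Fin K → ℕ,
      rho ^ (K + (Finset.univ.filter (fun i => h' i ∉ Finset.univ.image h)).card)
        = rho ^ K * ∏ i, (if h' i ∉ Finset.univ.image h then rho else 1) := by
    intro h'
    rw [pow_add]
    congr 1
    rw [Finset.prod_ite, Finset.prod_const, Finset.prod_const_one, mul_one]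
  simp_rw [h1]
  rw [← Finset.mul_sum]
  apply mul_le_mul_of_nonneg_left _ (pow_nonneg hrho _)
  have h0 : ∀ a : ℕ, (0 : ℝ) ≤ (if a ∉ Finset.univ.image h then rho else 1) := by
    intro a
    split_ifs
    · exact zero_le_one
    · exact hrho
  have h2 : ∑ h' ∈ F, ∏ i, (if h' i ∉ Finset.univ.image h then rho else 1)
      ≤ ∑ h' ∈ Fintype.piFinset (fun _ : Fin K => S),
        ∏ i, (if h' i ∉ Finset.univ.image h then rho else 1) := by
    apply Finset.sum_le_sum_of_subset_of_nonneg
    · intro g hg
      rw [Fintype.mem_piFinset]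
      exact hF g hg
    · intro g _ _
      exact Finset.prod_nonneg (fun i _ => h0 _)
  refine h2.trans ?_
  rw [← Finset.prod_univ_sum (fun _ : Fin K => S)
    (fun _ a => if a ∉ Finset.univ.image h then rho else (1 : ℝ))]
  rw [Finset.prod_const, Finset.card_univ, Fintype.card_fin]
  apply pow_le_pow_left₀ (Finset.sum_nonneg (fun a _ => h0 a))
  have h3 : ∀ a ∈ S, (if a ∉ Finset.univ.image h then rho else (1 : ℝ))
      ≤ rho + (if a ∈ Finset.univ.image h then 1 else 0) := by
    intro a _
    by_cases ha : a ∈ Finset.univ.image h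
    · rw [if_neg (not_not.mpr ha), if_pos ha]
      linarith
    · rw [if_pos ha, if_neg ha]
      linarith
  refine (Finset.sum_le_sum h3).trans ?_
  rw [Finset.sum_add_distrib, Finset.sum_const, nsmul_eq_mul, H91CH.card_filter_real]
  have h4 : ((S.filter (fun a => a ∈ Finset.univ.image h)).card : ℝ) ≤ K := by
    have h5 : (S.filter (fun a => a ∈ Finset.univ.image h)).card ≤ (Finset.univ.image h).card := by
      apply Finset.card_le_card
      intro a ha
      exact (Finset.mem_filter.mp ha).2
    have h6 : (Finset.univ.image h).card ≤ K := by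
      refine Finset.card_image_le.trans ?_
      simp
    exact_mod_cast h5.trans h6
  linarith

/-- the second moment method for a family of injective tuples -/
theorem dbl2 {K : ℕ} (S : Finset ℕ) (F : Finset (Fin K → ℕ)) (hF : ∀ h ∈ F, ∀ i, h i ∈ S)
    (hinj : ∀ h ∈ F, Function.Injective h)
    (T : Finset ℕ) (G : (Fin K → ℕ) → ℕ → Prop) (r : ℕ → ℕ → Prop)
    (hGr : ∀ h t, G h t → ∀ i, r (h i) t)
    (rho c0 C v : ℝ) (hrho : 0 < rho) (hc0 : 0 < c0) (hC : 0 < C) (hv0 : 0 < v)
    (hv : rho * S.card ≤ v)
    (hlow : ∀ h ∈ F, ∃ B : Finset ℕ, B ⊆ T ∧ (∀ t ∈ B, G h t) ∧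
      c0 * T.card * rho ^ K ≤ (B.card : ℝ))
    (hup : ∀ U : Finset ℕ, U ⊆ S → U.card ≤ 2 * K →
      ∀ B : Finset ℕ, B ⊆ T → (∀ t ∈ B, ∀ k ∈ U, r k t) →
      (B.card : ℝ) ≤ C * T.card * rho ^ U.card) :
    ∃ B : Finset ℕ, B ⊆ T ∧ (∀ t ∈ B, ∃ h ∈ F, G h t) ∧
      c0 ^ 2 / (C * (K + v) ^ K) * (rho ^ K * F.card) * T.card ≤ (B.card : ℝ) := by
  classical
  choose! A hAT hAG hAc using hlow
  refine ⟨T.filter (fun t => ∃ h ∈ F, t ∈ A h), Finset.filter_subset _ _, ?_, ?_⟩
  · intro t ht
    obtain ⟨_, h, hh, hth⟩ := Finset.mem_filter.mp ht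
    exact ⟨h, hh, hAG h hh t hth⟩
  have hfirst : c0 * T.card * (rho ^ K * F.card)
      ≤ ∑ t ∈ T, ∑ h ∈ F, (if t ∈ A h then (1 : ℝ) else 0) := by
    rw [Finset.sum_comm]
    have h1 : ∀ h ∈ F, c0 * T.card * rho ^ K ≤ ∑ t ∈ T, (if t ∈ A h then (1 : ℝ) else 0) := by
      intro h hh
      rw [H91CH.card_filter_real]
      refine (hAc h hh).trans ?_
      have : (A h).card ≤ (T.filter (fun t => t ∈ A h)).card := by
        apply Finset.card_le_card
        intro t ht
        exact Finset.mem_filter.mpr ⟨hAT h hh ht, ht⟩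
      exact_mod_cast this
    have h2 := Finset.sum_le_sum h1
    rw [Finset.sum_const, nsmul_eq_mul] at h2
    refine le_trans (le_of_eq ?_) h2
    ring
  have hsecond : ∑ t ∈ T, (∑ h ∈ F, (if t ∈ A h then (1 : ℝ) else 0)) ^ 2
      ≤ C * T.card * (F.card * (rho ^ K * (K + v) ^ K)) := by
    rw [H91CH.sum_sq_ind]
    have h1 : ∀ h ∈ F, ∀ h' ∈ F,
        ((T.filter (fun t => t ∈ A h ∧ t ∈ A h')).card : ℝ)
        ≤ C * T.card * rho ^ (K + (Finset.univ.filter (fun i => h' i ∉ Finset.univ.image h)).card) := by
      intro h hh h' hh'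
      have h2 := card_union_inj (hinj h hh) (hinj h' hh')
      have h3 : (Finset.univ.filter (fun i => h' i ∉ Finset.univ.image h)).card ≤ K := by
        refine (Finset.card_filter_le _ _).trans ?_
        simp
      rw [← h2]
      apply hup
      · intro k hk
        simp only [Finset.mem_union, Finset.mem_image, Finset.mem_univ, true_and] at hk
        rcases hk with ⟨i, rfl⟩ | ⟨i, rfl⟩
        · exact hF h hh i
        · exact hF h' hh' i
      · omega
      · exact Finset.filter_subset _ _
      · intro t ht k hk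
        rw [Finset.mem_filter] at ht
        simp only [Finset.mem_union, Finset.mem_image, Finset.mem_univ, true_and] at hk
        rcases hk with ⟨i, rfl⟩ | ⟨i, rfl⟩
        · exact hGr h t (hAG h hh t ht.2.1) i
        · exact hGr h' t (hAG h' hh' t ht.2.2) i
    refine (Finset.sum_le_sum (fun h hh => Finset.sum_le_sum (fun h' hh' => h1 h hh h' hh'))).trans ?_
    simp_rw [← Finset.mul_sum]
    apply mul_le_mul_of_nonneg_left _ (by positivity)
    have h4 := Finset.sum_le_sum (fun h (_ : h ∈ F) => sum_pairs2 S F hF rho v hrho.le hv h)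
    rw [Finset.sum_const, nsmul_eq_mul] at h4
    exact h4
  have hCS := H91CH.cs_count T (fun t => ∑ h ∈ F, (if t ∈ A h then (1 : ℝ) else 0))
    (fun t => ∃ h ∈ F, t ∈ A h) (by
      intro t ht hEt
      apply Finset.sum_eq_zero
      intro h hh
      rw [if_neg]
      intro hG
      exact hEt ⟨h, hh, hG⟩)
  rcases Nat.eq_zero_or_pos T.card with hT | hT
  · rw [hT, Nat.cast_zero, mul_zero]
    exact Nat.cast_nonneg _
  rcases Nat.eq_zero_or_pos F.card with hFc | hFc
  · rw [hFc, Nat.cast_zero, mul_zero, mul_zero, zero_mul]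
    exact Nat.cast_nonneg _
  have hT0 : (0 : ℝ) < T.card := by exact_mod_cast hT
  have hF0 : (0 : ℝ) < F.card := by exact_mod_cast hFc
  have hKv : (0 : ℝ) < (K + v) ^ K := by positivity
  have hmain := (pow_le_pow_left₀ (by positivity) hfirst 2).trans
    (hCS.trans (mul_le_mul_of_nonneg_right hsecond (Nat.cast_nonneg _)))
  have h7 : 0 < C * T.card * (F.card * (rho ^ K * (K + v) ^ K)) := by positivity
  refine le_of_mul_le_mul_left (le_trans (le_of_eq ?_) hmain) h7
  field_simp

end H91CK
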