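import Pool.Agent.H91.CH.Mst
import Pool.Agent.H91.CK.Cnt
import Pool.Agent.H91.CK.Cls

/-! The master theorem for arbitrary families of tuples inside one class modulo the small primes. -/

set_option autoImplicit false

open Finset Pool.Agent.H17 Filter

namespace H91CK

theorem card_Sab_le {W m : ℕ} {be : ℝ} (hW : 0 < W) (hlen : (W : ℝ) ≤ be) :
    ((H91CH.Sab W m 0 be).card : ℝ) ≤ 2 * be * (W.totient : ℝ) / W := by
  have hW0 : (0 : ℝ) < W := by exact_mod_cast hW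
  have hbe : 0 < be := by linarith
  set b := ⌊be⌋₊ with hb
  have hb1 : (b : ℝ) ≤ be := Nat.floor_le hbe.le
  set q := b / W + 1 with hq
  have hq1 : b < q * W := by
    rw [hq, add_mul, one_mul]
    have := Nat.lt_div_mul_add hW (a := b)
    exact this
  have hsub : H91CH.Sab W m 0 be ⊆
      (Finset.Ico 1 (1 + q * W)).filter (fun h => (m + h).Coprime W) := by
    intro h hh
    rw [H91CH.mem_Sab le_rfl hbe.le] at hh
    rw [Finset.mem_filter, Finset.mem_Ico]
    have h1 : 0 < h := by exact_mod_cast hh.1.1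
    have h2 : h ≤ b := Nat.le_floor hh.1.2
    exact ⟨⟨h1, by omega⟩, hh.2⟩
  have h3 := Finset.card_le_card hsub
  rw [H91CH.card_periods W m 1 q hW] at h3
  have h4 : ((H91CH.Sab W m 0 be).card : ℝ) ≤ (q : ℝ) * (W.totient : ℝ) := by exact_mod_cast h3
  refine h4.trans ?_
  have h5 : (q : ℝ) ≤ 2 * be / W := by
    have h6 : ((b / W : ℕ) : ℝ) ≤ (b : ℝ) / W := Nat.cast_div_le
    have h7 : (q : ℝ) = ((b / W : ℕ) : ℝ) + 1 := by rw [hq]; push_cast; ring
    have h8 : (b : ℝ) / W ≤ be / W := div_le_div_of_nonneg_right hb1 hW0.le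
    have h9 : 1 ≤ be / W := by rw [le_div_iff₀ hW0]; linarith
    have h10 : 2 * be / W = be / W + be / W := by ring
    linarith
  calc (q : ℝ) * (W.totient : ℝ) ≤ 2 * be / W * (W.totient : ℝ) :=
        mul_le_mul_of_nonneg_right h5 (Nat.cast_nonneg _)
    _ = _ := by ring

/-- the good event: m + 1 primes among the n + h_i, all n + h_i without prime factors up to x^e, and no
other prime in (n, n + La log x] -/
def Gd2 {K : ℕ} (m : ℕ) (La e x : ℝ) (n : ℕ) (h : Fin K → ℕ) : Prop :=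
  H91CH.Gd m La x n h ∧ ∀ i, ∀ p : ℕ, p.Prime → p ∣ n + h i → x ^ e < p

/-- one class b mod W, for a family of tuples -/
theorem one_class2 {K m : ℕ} {La e1 c C x : ℝ} (hL : 1 ≤ Real.log x) (hLa : 1 ≤ La)
    (hc : 0 < c) (hC : 0 < C) (b : ℕ)
    (hlow : ∀ H : Finset ℕ, H.card = K → (∀ h ∈ H, 1 ≤ h ∧ (h : ℝ) ≤ La * Real.log x ∧
        Nat.Coprime (H73PC.Xo x + b + h) (WW (yy x))) →
      ∃ B : Finset ℕ, B ⊆ range (H73PC.To x) ∧
        c * (H73PC.To x : ℝ) * H73PC.Vo x ^ K ≤ (B.card : ℝ) ∧ ∀ t ∈ B,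
        (m + 1 ≤ (H.filter (fun h => (H73PC.Xo x + b + WW (yy x) * t + h).Prime)).card ∧
        (∀ k : ℕ, 1 ≤ k → (k : ℝ) ≤ La * Real.log x → k ∉ H →
          ¬ (H73PC.Xo x + b + WW (yy x) * t + k).Prime) ∧
        ∀ h ∈ H, H73PC.Ro (yy x) (x ^ e1) (H73PC.Xo x + b + WW (yy x) * t + h)))
    (hup : ∀ U : Finset ℕ, U.card ≤ 2 * K → (∀ h ∈ U, 1 ≤ h ∧ (h : ℝ) ≤ La * Real.log x ∧
        Nat.Coprime (H73PC.Xo x + b + h) (WW (yy x))) →
      ∀ B : Finset ℕ, B ⊆ range (H73PC.To x) →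
        (∀ t ∈ B, ∀ h ∈ U, H73PC.Ro (yy x) (x ^ e1) (H73PC.Xo x + b + WW (yy x) * t + h)) →
        (B.card : ℝ) ≤ C * (H73PC.To x : ℝ) * H73PC.Vo x ^ U.card)
    (F : Finset (Fin K → ℕ)) (hFinj : ∀ h ∈ F, Function.Injective h)
    (hF : ∀ h ∈ F, ∀ i, 1 ≤ h i ∧ (h i : ℝ) ≤ La * Real.log x)
    (hW : (WW (yy x) : ℝ) ≤ Real.log x) :
    ∃ B : Finset ℕ, B ⊆ range (H73PC.To x) ∧
      c ^ 2 / (C * (K + 2 * La) ^ K) * (H73PC.Vo x ^ K * ((F.filter (fun h => ∀ i,
        (H73PC.Xo x + b + h i).Coprime (WW (yy x)))).card : ℝ)) * (H73PC.To x : ℝ) ≤ (B.card : ℝ) ∧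
      ∀ t ∈ B, ∃ h ∈ F, Gd2 m La e1 x (H73PC.Xo x + b + WW (yy x) * t) h := by
  have hL0 : 0 < Real.log x := by linarith
  have hWpos : 0 < WW (yy x) := WW_pos (yy x)
  have hW0 : (0 : ℝ) < (WW (yy x) : ℝ) := by exact_mod_cast hWpos
  have hph : (0 : ℝ) < ((WW (yy x)).totient : ℝ) := by
    exact_mod_cast Nat.totient_pos.mpr hWpos
  have hVo : 0 < H73PC.Vo x := by unfold H73PC.Vo; positivity
  set S : Finset ℕ := H91CH.Sab (WW (yy x)) (H73PC.Xo x + b) 0 (La * Real.log x) with hS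
  have hbe0 : 0 ≤ La * Real.log x := by positivity
  have hmem : ∀ k, k ∈ S ↔ ((0 : ℝ) < (k : ℝ) ∧ (k : ℝ) ≤ La * Real.log x) ∧
      (H73PC.Xo x + b + k).Coprime (WW (yy x)) := by
    intro k
    rw [hS]
    exact H91CH.mem_Sab le_rfl hbe0
  have hin : ∀ k, k ∈ S → 1 ≤ k ∧ (k : ℝ) ≤ La * Real.log x ∧
      Nat.Coprime (H73PC.Xo x + b + k) (WW (yy x)) := by
    intro k hk
    rw [hmem] at hk
    exact ⟨by exact_mod_cast hk.1.1, hk.1.2, hk.2⟩
  set F' := F.filter (fun h => ∀ i, (H73PC.Xo x + b + h i).Coprime (WW (yy x))) with hF'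
  have hF'F : ∀ h ∈ F', h ∈ F := fun h hh => (Finset.mem_filter.mp hh).1
  have hF'S : ∀ h ∈ F', ∀ i, h i ∈ S := by
    intro h hh i
    rw [hmem]
    have h1 := hF h (hF'F h hh) i
    exact ⟨⟨by exact_mod_cast h1.1, h1.2⟩, (Finset.mem_filter.mp hh).2 i⟩
  obtain ⟨B, hBT, hBG, hBc⟩ := dbl2 S F' hF'S (fun h hh => hFinj h (hF'F h hh))
    (range (H73PC.To x))
    (fun h t => H91CH.Gd m La x (H73PC.Xo x + b + WW (yy x) * t) h ∧
      ∀ i, H73PC.Ro (yy x) (x ^ e1) (H73PC.Xo x + b + WW (yy x) * t + h i))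
    (fun k t => H73PC.Ro (yy x) (x ^ e1) (H73PC.Xo x + b + WW (yy x) * t + k))
    (fun h t hG => hG.2) (H73PC.Vo x) c C (2 * La) hVo hc hC (by positivity)
    (by
      have h1 := card_Sab_le (W := WW (yy x)) (m := H73PC.Xo x + b) (be := La * Real.log x) hWpos
        (by nlinarith)
      calc H73PC.Vo x * (S.card : ℝ)
          ≤ H73PC.Vo x * (2 * (La * Real.log x) * ((WW (yy x)).totient : ℝ) / (WW (yy x) : ℝ)) :=
            mul_le_mul_of_nonneg_left h1 hVo.le
        _ = 2 * La := by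
            unfold H73PC.Vo
            field_simp)
    (by
      intro h hh
      obtain ⟨B, hB1, hB2, hB3⟩ := hlow (Finset.univ.image h) (by
        rw [Finset.card_image_of_injective _ (hFinj h (hF'F h hh))]; simp) (by
        intro k hk
        simp only [Finset.mem_image, Finset.mem_univ, true_and] at hk
        obtain ⟨i, rfl⟩ := hk
        exact hin _ (hF'S h hh i))
      refine ⟨B, hB1, ?_, ?_⟩
      · intro t ht
        obtain ⟨h1, h2, h3⟩ := hB3 t ht
        refine ⟨⟨h1, h2⟩, fun i => h3 _ (Finset.mem_image_of_mem h (Finset.mem_univ i))⟩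
      · rw [Finset.card_range]
        exact hB2)
    (by
      intro U hU hUc B hB1 hB2
      rw [Finset.card_range]
      apply hup U hUc _ B hB1 hB2
      intro k hk
      exact hin k (hU hk))
  refine ⟨B, hBT, ?_, ?_⟩
  · rw [Finset.card_range] at hBc
    exact hBc
  · intro t ht
    obtain ⟨h, hh, hG⟩ := hBG t ht
    refine ⟨h, hF'F h hh, hG.1, ?_⟩
    intro i p hp hd
    by_cases hpy : yy x < p
    · exact hG.2 i p hp hd hpy
    · exfalso
      have hcop := (Finset.mem_filter.mp hh).2 i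
      have hpW : p ∣ WW (yy x) := by
        unfold WW
        apply Finset.dvd_prod_of_mem
        rw [mem_PP]
        exact ⟨not_lt.mp hpy, hp⟩
      have h1 : H73PC.Xo x + b + WW (yy x) * t + h i
          = H73PC.Xo x + b + h i + WW (yy x) * t := by ring
      rw [h1] at hd
      have h2 : p ∣ H73PC.Xo x + b + h i :=
        (Nat.dvd_add_left (dvd_mul_of_dvd_left hpW t)).mp hd
      have h3 := Nat.dvd_gcd h2 hpW
      rw [hcop] at h3
      exact hp.one_lt.ne' (Nat.dvd_one.mp h3)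

/-- the sum over the classes -/
lemma sum_classes2 (W T X0 : ℕ) (hW : 0 < W) (B : ℕ → Finset ℕ) :
    ∃ A : Finset ℕ, ∑ b ∈ range W, ((B b).card : ℝ) ≤ (A.card : ℝ) ∧ ∀ n ∈ A, ∃ b < W, ∃ t ∈ B b,
      n = X0 + b + W * t := by
  refine ⟨(range W).biUnion (fun b => (B b).image (fun t => X0 + b + W * t)), ?_, ?_⟩
  · rw [Finset.card_biUnion]
    · push_cast
      apply Finset.sum_le_sum
      intro b _
      rw [Finset.card_image_of_injective]
      intro t t' htt
      have h2 : W * t = W * t' := by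
        have : X0 + b + W * t = X0 + b + W * t' := htt
        omega
      exact Nat.eq_of_mul_eq_mul_left hW h2
    · intro b hb b' hb' hne
      rw [Finset.coe_range, Set.mem_Iio] at hb hb'
      show Disjoint _ _
      rw [Finset.disjoint_left]
      intro n hn hn'
      rw [Finset.mem_image] at hn hn'
      obtain ⟨t, _, ht⟩ := hn
      obtain ⟨t', _, ht'⟩ := hn'
      apply hne
      have h1 : (b + W * t) % W = b := by
        rw [Nat.add_mul_mod_self_left, Nat.mod_eq_of_lt hb]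
      have h2 : (b' + W * t') % W = b' := by
        rw [Nat.add_mul_mod_self_left, Nat.mod_eq_of_lt hb']
      have h3 : b + W * t = b' + W * t' := by omega
      rw [← h1, ← h2, h3]
  · intro n hn
    rw [Finset.mem_biUnion] at hn
    obtain ⟨b, hb, hn⟩ := hn
    rw [Finset.mem_image] at hn
    obtain ⟨t, ht, rfl⟩ := hn
    exact ⟨b, Finset.mem_range.mp hb, t, ht, rfl⟩

/-- the master theorem for families -/
theorem master2 (m : ℕ) : ∃ K : ℕ, m + 1 ≤ K ∧ ∀ La : ℝ, 1 ≤ La →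
    ∃ c e x0 : ℝ, 0 < c ∧ 0 < e ∧ ∀ x : ℝ, x0 ≤ x → ∀ F : Finset (Fin K → ℕ),
      (∀ h ∈ F, Function.Injective h) →
      (∀ h ∈ F, ∀ i, 1 ≤ h i ∧ (h i : ℝ) ≤ La * Real.log x) →
      (∀ h ∈ F, ∀ p : ℕ, p.Prime → ∃ r : ℕ, ∀ i, ¬ h i ≡ r [MOD p]) →
      ∃ A : Finset ℕ, c * x * ((F.card : ℝ) / Real.log x ^ K) ≤ (A.card : ℝ) ∧
        ∀ n ∈ A, ⌊x / 2⌋₊ ≤ n ∧ (n : ℝ) ≤ 3 / 4 * x ∧ ∃ h ∈ F, Gd2 m La e x n h := by
  classical
  obtain ⟨K, hK, hclx⟩ := H73PC.clx m
  refine ⟨K, hK, ?_⟩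
  intro La hLa
  set N := 2 * K ^ 2 + 2 * K with hN
  obtain ⟨e1, c, C, x1, he1, he1', hc, hC, hx1⟩ := hclx La hLa
  have hKpos : 0 < K := by omega
  set c1 : ℝ := c ^ 2 / (C * (K + 2 * La) ^ K) with hc1
  have hc1pos : 0 < c1 := by rw [hc1]; positivity
  have hev : ∀ᶠ x : ℝ in atTop, x1 ≤ x ∧ 1 ≤ Real.log x ∧ (WW (yy x) : ℝ) ≤ Real.log x ∧
      (WW (yy x) : ℝ) ≤ x / 8 ∧ 1 ≤ x := by
    filter_upwards [eventually_ge_atTop x1, Real.tendsto_log_atTop.eventually_ge_atTop 1,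
      eventually_log_pow_le 1 (show (0 : ℝ) < 1 / 8 by norm_num), eventually_ge_atTop 1]
      with x h1 h2 h4 h5
    have hL0 : 0 < Real.log x := by linarith
    have hW := H91CH.WW_le_sqrt h2
    have h6 : Real.sqrt (Real.log x) ≤ Real.log x := by
      rw [Real.sqrt_le_left hL0.le]
      nlinarith
    refine ⟨h1, h2, hW.trans h6, ?_, h5⟩
    rw [pow_one] at h4
    linarith
  obtain ⟨x0, hx0⟩ := eventually_atTop.mp hev
  have hN0 : (0 : ℝ) < (WW N : ℝ) := by exact_mod_cast WW_pos N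
  refine ⟨c1 / (16 * (WW N : ℝ)), e1, x0, by positivity, he1, ?_⟩
  intro x hx F hFinj hF hFc
  obtain ⟨hx1', hL, hWL, hWx, hx11⟩ := hx0 x hx
  have hL0 : 0 < Real.log x := by linarith
  have hWpos : 0 < WW (yy x) := WW_pos (yy x)
  have hW0 : (0 : ℝ) < (WW (yy x) : ℝ) := by exact_mod_cast hWpos
  have hph : (0 : ℝ) < ((WW (yy x)).totient : ℝ) := by
    exact_mod_cast Nat.totient_pos.mpr hWpos
  have hVo : 0 < H73PC.Vo x := by unfold H73PC.Vo; positivity
  have hb : ∀ b < WW (yy x), ∃ B : Finset ℕ, B ⊆ range (H73PC.To x) ∧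
      c1 * (H73PC.Vo x ^ K * ((F.filter (fun h => ∀ i,
        (H73PC.Xo x + b + h i).Coprime (WW (yy x)))).card : ℝ)) * (H73PC.To x : ℝ) ≤ (B.card : ℝ) ∧
      ∀ t ∈ B, ∃ h ∈ F, Gd2 m La e1 x (H73PC.Xo x + b + WW (yy x) * t) h := by
    intro b hb
    obtain ⟨hlow, hup⟩ := hx1 x hx1' b hb
    apply one_class2 (e1 := e1) hL hLa hc hC b _ _ F hFinj hF hWL
    · intro H hH hH'
      exact ⟨_, Finset.filter_subset _ _, hlow H hH hH', fun t ht => (Finset.mem_filter.mp ht).2⟩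
    · intro U hU hU' B hB hB'
      refine le_trans ?_ (hup U hU hU')
      have : B.card ≤ ((range (H73PC.To x)).filter (fun t => ∀ h ∈ U,
          H73PC.Ro (yy x) (x ^ e1) (H73PC.Xo x + b + WW (yy x) * t + h))).card := by
        apply Finset.card_le_card
        intro t ht
        exact Finset.mem_filter.mpr ⟨hB ht, hB' t ht⟩
      exact_mod_cast this
  choose! B hB1 hB2 hB3 using hb
  obtain ⟨A, hA1, hA2⟩ := sum_classes2 (WW (yy x)) (H73PC.To x) (H73PC.Xo x) hWpos B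
  -- the number of pairs
  have hpairs : (F.card : ℝ) * ((WW (yy x) : ℝ) / (2 * (WW N : ℝ)) *
      (((WW (yy x)).totient : ℝ) / (WW (yy x) : ℝ)) ^ K)
      ≤ ∑ b ∈ range (WW (yy x)), ((F.filter (fun h => ∀ i,
        (H73PC.Xo x + b + h i).Coprime (WW (yy x)))).card : ℝ) := by
    have h1 : ∑ b ∈ range (WW (yy x)), ((F.filter (fun h => ∀ i,
        (H73PC.Xo x + b + h i).Coprime (WW (yy x)))).card : ℝ)
        = ∑ h ∈ F, (((Finset.range (WW (yy x))).filter (fun b => ∀ k ∈ Finset.univ.image h,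
          (H73PC.Xo x + b + k).Coprime (WW (yy x)))).card : ℝ) := by
      have h2 : ∀ b ∈ range (WW (yy x)), ((F.filter (fun h => ∀ i,
        (H73PC.Xo x + b + h i).Coprime (WW (yy x)))).card : ℝ)
          = ∑ h ∈ F, (if (∀ i, (H73PC.Xo x + b + h i).Coprime (WW (yy x))) then (1 : ℝ) else 0) := by
        intro b _
        rw [Finset.card_filter]
        push_cast
        rfl
      rw [Finset.sum_congr rfl h2, Finset.sum_comm]
      apply Finset.sum_congr rfl
      intro h _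
      rw [Finset.card_filter]
      push_cast
      apply Finset.sum_congr rfl
      intro b _
      congr 1
      simp
    rw [h1, ← nsmul_eq_mul, ← Finset.sum_const]
    apply Finset.sum_le_sum
    intro h hh
    apply card_classes (yy x) N (H73PC.Xo x) K (by omega) (by omega) (by omega)
    · refine Finset.card_image_le.trans ?_
      simp
    · intro p hp
      obtain ⟨r, hr⟩ := hFc h hh p hp
      refine ⟨r, fun k hk => ?_⟩
      simp only [Finset.mem_image, Finset.mem_univ, true_and] at hk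
      obtain ⟨i, rfl⟩ := hk
      exact hr i
  have hTle : ((WW (yy x) : ℝ)) * (H73PC.To x : ℝ) ≤ x / 4 := by
    have h1 : (H73PC.To x : ℝ) ≤ x / (4 * (WW (yy x) : ℝ)) := Nat.floor_le (by positivity)
    calc ((WW (yy x) : ℝ)) * (H73PC.To x : ℝ) ≤ (WW (yy x) : ℝ) * (x / (4 * (WW (yy x) : ℝ))) := by
          gcongr
      _ = x / 4 := by field_simp
  have hTge : x / 8 ≤ ((WW (yy x) : ℝ)) * (H73PC.To x : ℝ) := by
    have h1 : x / (4 * (WW (yy x) : ℝ)) < (H73PC.To x : ℝ) + 1 := Nat.lt_floor_add_one _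
    rw [div_lt_iff₀ (by positivity)] at h1
    nlinarith
  refine ⟨A, ?_, ?_⟩
  · refine le_trans ?_ hA1
    have h1 : ∑ b ∈ range (WW (yy x)), c1 * (H73PC.Vo x ^ K * ((F.filter (fun h => ∀ i,
        (H73PC.Xo x + b + h i).Coprime (WW (yy x)))).card : ℝ)) * (H73PC.To x : ℝ)
        ≤ ∑ b ∈ range (WW (yy x)), ((B b).card : ℝ) :=
      Finset.sum_le_sum (fun b hb => hB2 b (Finset.mem_range.mp hb))
    refine le_trans ?_ h1
    rw [← Finset.sum_mul, ← Finset.mul_sum, ← Finset.mul_sum]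
    have h2 : c1 * (H73PC.Vo x ^ K * ((F.card : ℝ) * ((WW (yy x) : ℝ) / (2 * (WW N : ℝ)) *
      (((WW (yy x)).totient : ℝ) / (WW (yy x) : ℝ)) ^ K))) * (H73PC.To x : ℝ)
        = c1 / (2 * (WW N : ℝ)) * ((F.card : ℝ) / Real.log x ^ K) *
          ((WW (yy x) : ℝ) * (H73PC.To x : ℝ)) := by
      have h3 : H73PC.Vo x ^ K * (((WW (yy x)).totient : ℝ) / (WW (yy x) : ℝ)) ^ K
          = 1 / Real.log x ^ K := by
        rw [← mul_pow]
        unfold H73PC.Vo
        have h4 : (WW (yy x) : ℝ) / (((WW (yy x)).totient : ℝ) * Real.log x) *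
            (((WW (yy x)).totient : ℝ) / (WW (yy x) : ℝ)) = 1 / Real.log x := by
          field_simp
        rw [h4, div_pow, one_pow]
      calc _ = c1 / (2 * (WW N : ℝ)) * (F.card : ℝ) * (H73PC.Vo x ^ K *
            (((WW (yy x)).totient : ℝ) / (WW (yy x) : ℝ)) ^ K) *
            ((WW (yy x) : ℝ) * (H73PC.To x : ℝ)) := by ring
        _ = _ := by rw [h3]; ring
    have h5 : c1 / (16 * (WW N : ℝ)) * x * ((F.card : ℝ) / Real.log x ^ K)
        ≤ c1 / (2 * (WW N : ℝ)) * ((F.card : ℝ) / Real.log x ^ K) *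
          ((WW (yy x) : ℝ) * (H73PC.To x : ℝ)) := by
      have h6 : 0 ≤ c1 / (2 * (WW N : ℝ)) * ((F.card : ℝ) / Real.log x ^ K) := by positivity
      have h7 := mul_le_mul_of_nonneg_left hTge h6
      refine le_trans (le_of_eq ?_) h7
      field_simp
      ring
    refine h5.trans ?_
    rw [← h2]
    apply mul_le_mul_of_nonneg_right _ (Nat.cast_nonneg _)
    apply mul_le_mul_of_nonneg_left _ hc1pos.le
    exact mul_le_mul_of_nonneg_left hpairs (pow_nonneg hVo.le _)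
  · intro n hn
    obtain ⟨b, hb, t, ht, rfl⟩ := hA2 n hn
    have htT : t < H73PC.To x := Finset.mem_range.mp (hB1 b hb ht)
    refine ⟨?_, ?_, hB3 b hb t ht⟩
    · show ⌊x / 2⌋₊ ≤ H73PC.Xo x + b + WW (yy x) * t
      unfold H73PC.Xo
      omega
    · have h1 : b + WW (yy x) * t ≤ WW (yy x) * H73PC.To x := by
        calc b + WW (yy x) * t ≤ WW (yy x) + WW (yy x) * t := by omega
          _ = WW (yy x) * (t + 1) := by ring
          _ ≤ WW (yy x) * H73PC.To x := Nat.mul_le_mul_left _ htT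
      have h2 : ((b + WW (yy x) * t : ℕ) : ℝ) ≤ ((WW (yy x) * H73PC.To x : ℕ) : ℝ) := by
        exact_mod_cast h1
      have h3 : ((H73PC.Xo x : ℕ) : ℝ) ≤ x / 2 := Nat.floor_le (by positivity)
      push_cast at h2 ⊢
      linarith

end H91CK
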