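import Pool.Agent.H91.CK.Alw
import Pool.Agent.H61.Ramsey

/-! Colourings: all s-element sets of shifts giving primes have the same colour. -/

set_option autoImplicit false

open Finset Pool.Agent.H17 Filter

namespace H91CK

/-- homogeneous K-subsets of S -/
noncomputable def Hom (s K : ℕ) {C : Type} (S : Finset ℕ) (chi : Finset ℕ → C) :
    Finset (Finset ℕ) := by
  classical
  exact (S.powersetCard K).filter (fun Y => ∃ col : C, ∀ Z ⊆ Y, Z.card = s → chi Z = col)

lemma mem_Hom {s K : ℕ} {C : Type} {S : Finset ℕ} {chi : Finset ℕ → C} {Y : Finset ℕ} :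
    Y ∈ Hom s K S chi ↔ (Y ⊆ S ∧ Y.card = K) ∧ ∃ col : C, ∀ Z ⊆ Y, Z.card = s → chi Z = col := by
  classical
  unfold Hom
  rw [Finset.mem_filter, Finset.mem_powersetCard]

/-- supersaturated Ramsey theorem -/
lemma supersat (s K : ℕ) (C : Type) [Finite C] : ∃ N0 : ℕ, K ≤ N0 ∧ ∀ S : Finset ℕ, N0 ≤ S.card →
    ∀ chi : Finset ℕ → C, S.card.choose K ≤ N0.choose K * (Hom s K S chi).card := by
  classical
  obtain ⟨N, hN⟩ := Pool.Agent.H61.ramsey_finset C s K
  refine ⟨max N K, le_max_right _ _, ?_⟩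
  set N0 := max N K with hN0
  have hKN0 : K ≤ N0 := le_max_right _ _
  intro S hS chi
  set F := Hom s K S chi with hF
  have h1 : (S.powersetCard N0).card ≤ ∑ Y ∈ F, ((S.powersetCard N0).filter (fun X => Y ⊆ X)).card := by
    rw [← Finset.card_sigma]
    have h2 : ∀ X ∈ S.powersetCard N0, ∃ Y ∈ F, Y ⊆ X := by
      intro X hX
      rw [Finset.mem_powersetCard] at hX
      obtain ⟨Y, hY, hYc, hcol⟩ := hN X (by rw [hX.2]; exact le_max_left _ _) chi
      exact ⟨Y, mem_Hom.mpr ⟨⟨hY.trans hX.1, hYc⟩, hcol⟩, hY⟩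
    choose! g hg1 hg2 using h2
    apply Finset.card_le_card_of_injOn (fun X => (⟨g X, X⟩ : (_ : Finset ℕ) × Finset ℕ))
    · intro X hX
      rw [Finset.mem_coe, Finset.mem_sigma, Finset.mem_filter]
      exact ⟨hg1 X hX, hX, hg2 X hX⟩
    · intro X _ X' _ hXX
      have := congrArg Sigma.snd hXX
      exact this
  have h3 : ∀ Y ∈ F, ((S.powersetCard N0).filter (fun X => Y ⊆ X)).card
      ≤ (S.card - K).choose (N0 - K) := by
    intro Y hY
    obtain ⟨⟨hYS, hYc⟩, _⟩ := mem_Hom.mp hY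
    have h4 : (S \ Y).card = S.card - K := by
      rw [Finset.card_sdiff_of_subset hYS, hYc]
    rw [← h4, ← Finset.card_powersetCard]
    apply Finset.card_le_card_of_injOn (fun X => X \ Y)
    · intro X hX
      rw [Finset.mem_coe, Finset.mem_filter, Finset.mem_powersetCard] at hX
      rw [Finset.mem_coe, Finset.mem_powersetCard]
      refine ⟨Finset.sdiff_subset_sdiff hX.1.1 le_rfl, ?_⟩
      rw [Finset.card_sdiff_of_subset hX.2, hX.1.2, hYc]
    · intro X hX X' hX' hXX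
      rw [Finset.mem_coe, Finset.mem_filter] at hX hX'
      have h5 : X \ Y = X' \ Y := hXX
      rw [← Finset.sdiff_union_of_subset hX.2, ← Finset.sdiff_union_of_subset hX'.2, h5]
  have h6 : S.card.choose N0 ≤ F.card * (S.card - K).choose (N0 - K) := by
    rw [Finset.card_powersetCard] at h1
    refine h1.trans ?_
    refine (Finset.sum_le_sum h3).trans ?_
    rw [Finset.sum_const, smul_eq_mul]
  have h7 : S.card.choose N0 * N0.choose K = S.card.choose K * (S.card - K).choose (N0 - K) :=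
    Nat.choose_mul hKN0
  have h8 : 0 < (S.card - K).choose (N0 - K) := Nat.choose_pos (by omega)
  have h9 : S.card.choose K * (S.card - K).choose (N0 - K)
      ≤ (N0.choose K * F.card) * (S.card - K).choose (N0 - K) := by
    rw [← h7]
    calc S.card.choose N0 * N0.choose K ≤ (F.card * (S.card - K).choose (N0 - K)) * N0.choose K :=
          Nat.mul_le_mul_right _ h6
      _ = _ := by ring
  exact Nat.le_of_mul_le_mul_right h9 h8

/-- elements of one class modulo the product of the primes up to K: K-subsets are admissible -/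
lemma adm_of_class {K P r : ℕ} (hP : P = WW K) {H : Finset ℕ} (h1 : H.card = K)
    (h2 : ∀ h ∈ H, h % P = r) : ∀ p : ℕ, p.Prime → ∃ q : ℕ, ∀ h ∈ H, ¬ h ≡ q [MOD p] := by
  intro p hp
  by_cases hpK : p ≤ K
  · have hpP : p ∣ P := by
      rw [hP]
      unfold WW
      apply Finset.dvd_prod_of_mem
      rw [mem_PP]
      exact ⟨hpK, hp⟩
    refine ⟨r + 1, fun h hh hmod => ?_⟩
    have h3 : h % P = r := h2 h hh
    have h4 : h ≡ r [MOD p] := by
      have : h ≡ r [MOD P] := by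
        show h % P = r % P
        rw [← h3, Nat.mod_mod]
      exact this.of_dvd hpP
    have h5 : r ≡ r + 1 [MOD p] := h4.symm.trans hmod
    have h6 : 0 ≡ 1 [MOD p] := Nat.ModEq.add_left_cancel' r h5
    have h7 : p ∣ 1 := (Nat.modEq_zero_iff_dvd.mp h6.symm)
    exact hp.one_lt.ne' (Nat.dvd_one.mp h7)
  · by_contra hcon
    push Not at hcon
    have h3 : Finset.range p ⊆ H.image (fun h => h % p) := by
      intro q hq
      obtain ⟨h, hh, hmod⟩ := hcon q
      rw [Finset.mem_image]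
      refine ⟨h, hh, ?_⟩
      have : h % p = q % p := hmod
      rw [this, Nat.mod_eq_of_lt (Finset.mem_range.mp hq)]
    have h4 := Finset.card_le_card h3
    rw [Finset.card_range] at h4
    have h5 : (H.image (fun h => h % p)).card ≤ H.card := Finset.card_image_le
    omega

/-- colourings -/
theorem monochromatic (m s r : ℕ) (La eps : ℝ) (heps : 0 < eps) : ∃ c x0 : ℝ, 0 < c ∧
    ∀ x : ℝ, x0 ≤ x → ∀ A : Finset ℕ, eps * Real.log x ≤ A.card →
    (∀ a ∈ A, 1 ≤ a ∧ (a : ℝ) ≤ La * Real.log x) → ∀ chi : Finset ℕ → Fin r,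
    c * x ≤ (Set.ncard {n : ℕ | x / 3 ≤ n ∧ (n : ℝ) + La * Real.log x ≤ x ∧
        m + 1 ≤ (A.filter (fun a => (n + a).Prime)).card ∧
        (∀ k : ℕ, 1 ≤ k → (k : ℝ) ≤ La * Real.log x → (n + k).Prime → k ∈ A) ∧
        ∃ col : Fin r, ∀ Z ⊆ A.filter (fun a => (n + a).Prime), Z.card = s → chi Z = col} : ℝ) := by
  classical
  obtain ⟨K, hK, hfam⟩ := families m
  have hKpos : 0 < K := by omega
  set P : ℕ := WW K with hP
  have hPpos : 0 < P := WW_pos K
  have hP0 : (0 : ℝ) < P := by exact_mod_cast hPpos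
  have hK0 : (0 : ℝ) < K := by exact_mod_cast hKpos
  obtain ⟨N0, hN0K, hsup⟩ := supersat s K (Fin r)
  obtain ⟨c, x1, hc, hx1⟩ := hfam La
  have hch : 0 < N0.choose K := Nat.choose_pos hN0K
  have hch0 : (0 : ℝ) < (N0.choose K : ℝ) := by exact_mod_cast hch
  have hev : ∀ᶠ x : ℝ in atTop, x1 ≤ x ∧ 1 ≤ Real.log x ∧
      (P : ℝ) * ((2 * N0 : ℕ) : ℝ) ≤ eps * Real.log x := by
    filter_upwards [eventually_ge_atTop x1, Real.tendsto_log_atTop.eventually_ge_atTop 1,
      Real.tendsto_log_atTop.eventually_ge_atTop ((P : ℝ) * ((2 * N0 : ℕ) : ℝ) / eps)]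
      with x h1 h2 h3
    refine ⟨h1, h2, ?_⟩
    rw [div_le_iff₀ heps] at h3
    linarith
  obtain ⟨x0, hx0⟩ := eventually_atTop.mp hev
  have hfac0 : (0 : ℝ) < (K.factorial : ℝ) := by exact_mod_cast Nat.factorial_pos K
  refine ⟨c * ((eps / (2 * P)) ^ K / ((K.factorial : ℝ) * (N0.choose K : ℝ))), max x0 1,
    by positivity, ?_⟩
  intro x hx A hAc hA chi
  obtain ⟨hxx1, hL, hPN⟩ := hx0 x ((le_max_left _ _).trans hx)
  have hx1' : 1 ≤ x := (le_max_right _ _).trans hx
  have hL0 : 0 < Real.log x := by linarith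
  obtain ⟨r0, hr⟩ := exists_class A P hPpos
  set A' := A.filter (fun a => a % P = r0) with hA'
  have hAA' : A' ⊆ A := Finset.filter_subset _ _
  have hrR : (A.card : ℝ) ≤ P * A'.card := by exact_mod_cast hr
  have hA'N2 : 2 * N0 ≤ A'.card := by
    have h1 : (P : ℝ) * ((2 * N0 : ℕ) : ℝ) ≤ P * A'.card := by linarith
    have h2 : ((2 * N0 : ℕ) : ℝ) ≤ A'.card := le_of_mul_le_mul_left h1 hP0
    exact_mod_cast h2
  have hA'N : N0 ≤ A'.card := by omega
  set F := Hom s K A' chi with hF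
  have hFc := hsup A' hA'N chi
  have hFprop : ∀ H ∈ F, H ⊆ A' ∧ H.card = K ∧
      ∃ col : Fin r, ∀ Z ⊆ H, Z.card = s → chi Z = col := by
    intro H hH
    obtain ⟨⟨h1, h2⟩, h3⟩ := mem_Hom.mp hH
    exact ⟨h1, h2, h3⟩
  have hlow := hx1 x hxx1 F (by
    intro H hH
    obtain ⟨h1, h2, _⟩ := hFprop H hH
    refine ⟨h2, fun h hh => hA h (hAA' (h1 hh)), ?_⟩
    apply adm_of_class hP h2 (r := r0)
    intro h hh
    exact (Finset.mem_filter.mp (h1 hh)).2)
  -- numerical part
  have hnum : (eps / (2 * P)) ^ K / ((K.factorial : ℝ) * (N0.choose K : ℝ))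
      ≤ (F.card : ℝ) / Real.log x ^ K := by
    have h2 := Nat.pow_le_choose K A'.card (α := ℝ)
    have h3 : (A'.card : ℝ) / 2 ≤ ((A'.card + 1 - K : ℕ) : ℝ) := by
      rw [div_le_iff₀ (by norm_num)]
      exact_mod_cast (by omega : A'.card ≤ (A'.card + 1 - K) * 2)
    have h4 : eps / (2 * P) * Real.log x ≤ (A'.card : ℝ) / 2 := by
      rw [div_mul_eq_mul_div, div_le_div_iff₀ (by positivity) (by norm_num)]
      nlinarith
    have h5 : (eps / (2 * P) * Real.log x) ^ K ≤ (K.factorial : ℝ) * (A'.card.choose K : ℝ) := by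
      have h6 : (eps / (2 * P) * Real.log x) ^ K ≤ ((A'.card + 1 - K : ℕ) : ℝ) ^ K :=
        pow_le_pow_left₀ (by positivity) (h4.trans h3) K
      rw [div_le_iff₀ hfac0] at h2
      linarith
    have h7 : (A'.card.choose K : ℝ) ≤ (N0.choose K : ℝ) * (F.card : ℝ) := by exact_mod_cast hFc
    rw [div_le_div_iff₀ (by positivity) (by positivity), ← mul_pow]
    calc (eps / (2 * P) * Real.log x) ^ K ≤ (K.factorial : ℝ) * (A'.card.choose K : ℝ) := h5
      _ ≤ (K.factorial : ℝ) * ((N0.choose K : ℝ) * (F.card : ℝ)) :=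
          mul_le_mul_of_nonneg_left h7 hfac0.le
      _ = _ := by ring
  have hcmp : c * ((eps / (2 * P)) ^ K / ((K.factorial : ℝ) * (N0.choose K : ℝ))) * x
      ≤ c * (F.card : ℝ) * x / Real.log x ^ K := by
    calc c * ((eps / (2 * P)) ^ K / ((K.factorial : ℝ) * (N0.choose K : ℝ))) * x
        ≤ c * ((F.card : ℝ) / Real.log x ^ K) * x := by gcongr
      _ = _ := by ring
  refine hcmp.trans (hlow.trans ?_)
  have hmono : {n : ℕ | x / 3 ≤ n ∧
      (n : ℝ) + La * Real.log x ≤ x ∧ ∃ H ∈ F,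
        m + 1 ≤ (H.filter (fun h => (n + h).Prime)).card ∧
        (∀ k : ℕ, 1 ≤ k → (k : ℝ) ≤ La * Real.log x → k ∉ H → ¬ (n + k).Prime) ∧
        ∀ h ∈ H, ∀ p : ℕ, p.Prime → p ∣ n + h → x ^ c < p} ⊆
      {n : ℕ | x / 3 ≤ n ∧ (n : ℝ) + La * Real.log x ≤ x ∧
        m + 1 ≤ (A.filter (fun a => (n + a).Prime)).card ∧
        (∀ k : ℕ, 1 ≤ k → (k : ℝ) ≤ La * Real.log x → (n + k).Prime → k ∈ A) ∧
        ∃ col : Fin r, ∀ Z ⊆ A.filter (fun a => (n + a).Prime), Z.card = s → chi Z = col} := by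
    rintro n ⟨h1, h2, H, hH, h3, h4, _⟩
    obtain ⟨g1, g2, col, hcol⟩ := hFprop H hH
    refine ⟨h1, h2, ?_, ?_, col, ?_⟩
    · refine h3.trans (Finset.card_le_card ?_)
      intro a ha
      rw [Finset.mem_filter] at ha ⊢
      exact ⟨hAA' (g1 ha.1), ha.2⟩
    · intro k hk1 hk2 hk3
      by_contra hcon
      have : k ∉ H := fun h => hcon (hAA' (g1 h))
      exact h4 k hk1 hk2 this hk3
    · intro Z hZ hZs
      apply hcol Z _ hZs
      intro a ha
      have h5 := Finset.mem_filter.mp (hZ ha)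
      by_contra hcon
      exact h4 a (hA a h5.1).1 (hA a h5.1).2 hcon h5.2
  have hfin : {n : ℕ | x / 3 ≤ n ∧ (n : ℝ) + La * Real.log x ≤ x ∧
        m + 1 ≤ (A.filter (fun a => (n + a).Prime)).card ∧
        (∀ k : ℕ, 1 ≤ k → (k : ℝ) ≤ La * Real.log x → (n + k).Prime → k ∈ A) ∧
        ∃ col : Fin r, ∀ Z ⊆ A.filter (fun a => (n + a).Prime), Z.card = s →
          chi Z = col}.Finite := by
    apply (Set.finite_le_nat ⌊x⌋₊).subset
    intro n hn
    have h1 : (n : ℝ) + La * Real.log x ≤ x := hn.2.1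
    show n ≤ ⌊x⌋₊
    apply Nat.le_floor
    have hne : (A.filter (fun a => (n + a).Prime)).Nonempty := by
      rw [← Finset.card_pos]
      have := hn.2.2.1
      omega
    obtain ⟨a, ha⟩ := hne
    have h2 := hA a (Finset.mem_filter.mp ha).1
    have h3 : (0 : ℝ) ≤ a := Nat.cast_nonneg _
    linarith
  exact_mod_cast Set.ncard_le_ncard hmono hfin

end H91CK
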